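import Pool.Agent.Helper16.KS.St
import Pool.Agent.Helper33.KS.CM

/-! Project KS, task 1705: Expand. -/

set_option autoImplicit false
open scoped Classical
open Finset

namespace Pool.Agent.Helper60.KX

open Pool.Agent.Helper16.KS Pool.Agent.Helper33.KS

lemma CM_mul (g : ℕ → ℝ) {m n : ℕ} (hm : m ≠ 0) (hn : n ≠ 0) : CM g (m * n) = CM g m * CM g n := by
  unfold CM
  rw [((Nat.perm_primeFactorsList_mul hm hn).map g).prod_eq, List.map_append, List.prod_append]

lemma CM_prime (g : ℕ → ℝ) {p : ℕ} (hp : p.Prime) : CM g p = g p := by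
  unfold CM
  rw [Nat.primeFactorsList_prime hp]; simp

lemma CM_one (g : ℕ → ℝ) : CM g 1 = 1 := by
  unfold CM; simp

lemma CM_eq (g : ℕ → ℝ) (n : ℕ) : n ≠ 0 → CM g n = cm g n := by
  induction n using Nat.recOnMul with
  | zero => intro h; exact absurd rfl h
  | one => intro _; rw [CM_one]; simp
  | prime p hp => intro _; rw [CM_prime g hp, cm_prime g hp]
  | mul m n hm hn =>
    intro h
    have hm0 : m ≠ 0 := fun h' => h (by simp [h'])
    have hn0 : n ≠ 0 := fun h' => h (by simp [h'])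
    rw [CM_mul g hm0 hn0, hm hm0, hn hn0, map_mul]

lemma CM_nonneg {g : ℕ → ℝ} (hg : ∀ p, p.Prime → 0 ≤ g p) {n : ℕ} (hn : n ≠ 0) : 0 ≤ CM g n := by
  rw [CM_eq g n hn]; exact cm_nonneg hg n

lemma CM_mono {g h : ℕ → ℝ} {n : ℕ} (hn : n ≠ 0) (hg : ∀ p, p.Prime → p ∣ n → 0 ≤ g p)
    (hgh : ∀ p, p.Prime → p ∣ n → g p ≤ h p) : CM g n ≤ CM h n := by
  rw [CM_eq g n hn, CM_eq h n hn]; exact cm_mono hg hgh

section nonneg

variable (S : Sys)

lemma base_nonneg (m : ℕ) : 0 ≤ S.base m := by unfold Sys.base; positivity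
lemma pr_nonneg (m : ℕ) : 0 ≤ S.pr m := by unfold Sys.pr; positivity
lemma G_nonneg (k : ℕ) : 0 ≤ S.G k := by unfold Sys.G; positivity
lemma NN_nonneg (R : Set ℕ) (k j : ℕ) : 0 ≤ S.NN R k j := by
  unfold Sys.NN
  exact sum_nonneg fun x _ => by have := pr_nonneg S x.2; positivity
lemma wo_nonneg (R : Set ℕ) (k j m : ℕ) : 0 ≤ S.wo R k j m := by
  unfold Sys.wo
  have h1 := G_nonneg S k
  have h2 := NN_nonneg S R k j
  have h3 := pr_nonneg S m
  have h4 := base_nonneg S m
  positivity
lemma cw_nonneg (R : Set ℕ) (k j q : ℕ) : 0 ≤ S.cw R k j q := by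
  unfold Sys.cw
  exact sum_nonneg fun x _ => wo_nonneg S R k j x.2
lemma ctl_nonneg (k0 k1 : ℕ) (R : Set ℕ) (q : ℕ) : 0 ≤ S.ctl k0 k1 R q := by
  unfold Sys.ctl
  exact sum_nonneg fun k _ => sum_nonneg fun j _ => cw_nonneg S R k j q
lemma bR_nonneg (R : Set ℕ) (p : ℕ) : 0 ≤ S.bR R p := by
  unfold Sys.bR
  split_ifs
  · exact base_nonneg S p
  · exact le_rfl
lemma phi0_nonneg (k0 : ℕ) : 0 ≤ S.phi0 k0 := by unfold Sys.phi0; positivity
lemma ordw_nonneg (k0 p : ℕ) : 0 ≤ S.ordw k0 p := by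
  unfold Sys.ordw
  split_ifs
  · exact le_rfl
  · exact phi0_nonneg S k0
  · exact le_rfl
  · have := G_nonneg S (Nat.log 2 p)
    positivity
lemma Wp_nonneg (k0 : ℕ) (R : Set ℕ) (p : ℕ) : 0 ≤ S.Wp k0 R p := by
  unfold Sys.Wp
  have h1 := bR_nonneg S R p
  have h2 := ordw_nonneg S k0 p
  have h3 := ctl_nonneg S k0 (top p) R p
  positivity
lemma Wl_nonneg (k0 : ℕ) (R : Set ℕ) (k p : ℕ) : 0 ≤ S.Wl k0 R k p := by
  unfold Sys.Wl
  have h1 := bR_nonneg S R p
  have h2 := ordw_nonneg S k0 p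
  have h3 := ctl_nonneg S k0 (min (top p) ⌈S.kap * k⌉₊) R p
  positivity
lemma W_nonneg (k0 : ℕ) (R : Set ℕ) {n : ℕ} (hn : n ≠ 0) : 0 ≤ S.W k0 R n :=
  CM_nonneg (fun p _ => Wp_nonneg S k0 R p) hn

end nonneg

lemma cell_bounds {d : ℝ} (hd : 0 < d) {k j n : ℕ} (hj : j < nc d k) (hn : n ∈ cell d k j) :
    2 ^ k ≤ n ∧ n < 2 ^ (k + 1) := by
  unfold cell at hn
  unfold nc at hj
  rw [mem_Ico] at hn
  have he : ec d k ≤ k := by
    unfold ec
    apply Nat.floor_le_of_le
    have : (0:ℝ) ≤ k := k.cast_nonneg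
    nlinarith
  have h1 : (j + 1) * 2 ^ ec d k ≤ 2 ^ (k - ec d k) * 2 ^ ec d k := Nat.mul_le_mul_right _ hj
  rw [← pow_add, Nat.sub_add_cancel he] at h1
  rw [pow_succ]
  constructor
  · exact le_trans (Nat.le_add_right _ _) hn.1
  · omega

/-- splitting of the four cases -/
lemma four_cases {ι : Type} (T : Finset ι) (f : ι → ℝ) (P B1 B2 B3 B4 : ι → Prop) [DecidablePred P]
    [DecidablePred B1] [DecidablePred B2] [DecidablePred B3] [DecidablePred B4] (hf : ∀ x ∈ T, 0 ≤ f x)
    (h : ∀ x ∈ T, P x → B1 x ∨ B2 x ∨ B3 x ∨ B4 x) :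
    ∑ x ∈ T.filter P, f x ≤ ∑ x ∈ T.filter B1, f x + ∑ x ∈ T.filter B2, f x +
      ∑ x ∈ T.filter B3, f x + ∑ x ∈ T.filter B4, f x := by
  simp only [sum_filter]
  rw [← sum_add_distrib, ← sum_add_distrib, ← sum_add_distrib]
  apply sum_le_sum
  intro x hx
  have h0 := hf x hx
  have n1 : 0 ≤ (if B1 x then f x else 0) := by split_ifs <;> [exact h0; exact le_rfl]
  have n2 : 0 ≤ (if B2 x then f x else 0) := by split_ifs <;> [exact h0; exact le_rfl]
  have n3 : 0 ≤ (if B3 x then f x else 0) := by split_ifs <;> [exact h0; exact le_rfl]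
  have n4 : 0 ≤ (if B4 x then f x else 0) := by split_ifs <;> [exact h0; exact le_rfl]
  by_cases hP : P x
  · rw [if_pos hP]
    rcases h x hx hP with h | h | h | h
    · rw [if_pos h] at n1 ⊢; linarith
    · rw [if_pos h] at n2 ⊢; linarith
    · rw [if_pos h] at n3 ⊢; linarith
    · rw [if_pos h] at n4 ⊢; linarith
  · rw [if_neg hP]; linarith

/-- (EXPAND) -/
theorem expand : Expand := by
  intro S
  refine ⟨S.K, fun k0 hk0 R _hR k hk j hj => ?_⟩
  have hkK : S.K ≤ k := le_trans hk0 hk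
  -- pointwise
  set t : ℕ → ℕ × ℕ → ℕ × ℕ → ℝ := fun n i x =>
    (n.factorization x.1 : ℝ) * (2 * S.wo R i.1 i.2 x.2 * S.W k0 R (n / x.1)) with ht
  have hpt : ∀ n ∈ cell S.d k j, S.W k0 R n ≤ CM (S.Wl k0 R k) n +
      ∑ k' ∈ S.hvy k0 k, ∑ j' ∈ S.badc k',
        (∑ x ∈ (S.act R k' j').filter (fun x => x.1 ∣ n ∧ Sys.Q1 (k', j') n x), t n (k', j') x +
        ∑ x ∈ (S.act R k' j').filter (fun x => x.1 ∣ n ∧ S.Q2 (k', j') n x), t n (k', j') x +
        ∑ x ∈ (S.act R k' j').filter (fun x => x.1 ∣ n ∧ S.Q3 (k', j') n x), t n (k', j') x +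
        ∑ x ∈ (S.act R k' j').filter (fun x => x.1 ∣ n ∧ Sys.Q4 (k', j') n x), t n (k', j') x) := by
    intro n hn
    obtain ⟨hn1, hn2⟩ := cell_bounds S.d_pos hj hn
    have hn0 : n ≠ 0 := by
      have : 0 < 2 ^ k := by positivity
      omega
    set Gh : ℕ → ℝ := fun p => 2 * (S.ctl k0 (top p) R p - S.ctl k0 (min (top p) ⌈S.kap * k⌉₊) R p) with hGh
    have hGh0 : ∀ p, p.Prime → 0 ≤ Gh p := by
      intro p _
      have : S.ctl k0 (min (top p) ⌈S.kap * k⌉₊) R p ≤ S.ctl k0 (top p) R p := by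
        unfold Sys.ctl
        apply sum_le_sum_of_subset_of_nonneg
        · exact Ico_subset_Ico_right (min_le_left _ _)
        · intro i _ _
          exact sum_nonneg fun j _ => cw_nonneg S R i j p
      simp only [hGh]
      linarith
    have hsum : S.Wp k0 R = fun p => S.Wl k0 R k p + Gh p := by
      funext p
      simp only [hGh, Sys.Wp, Sys.Wl]
      ring
    have h1 := cm_tele (F := S.Wl k0 R k) (G := Gh) (fun p _ => Wl_nonneg S k0 R k p) hGh0 n hn0
    rw [← hsum, ← CM_eq _ n hn0, ← CM_eq _ n hn0] at h1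
    refine h1.trans ?_
    apply add_le_add_right
    have h2 : ∀ p ∈ n.primeFactors, (n.factorization p : ℝ) * (Gh p * cm (S.Wp k0 R) (n / p)) ≤
        ∑ k' ∈ S.hvy k0 k, ∑ j' ∈ S.badc k', ∑ x ∈ (S.act R k' j').filter (fun x => x.1 = p), t n (k', j') x := by
      intro p hp
      have hpp := Nat.prime_of_mem_primeFactors hp
      have hpn := Nat.dvd_of_mem_primeFactors hp
      have hnp : n / p ≠ 0 := by
        have := Nat.div_pos (Nat.le_of_dvd (Nat.pos_of_ne_zero hn0) hpn) hpp.pos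
        omega
      have htop : top p ≤ 3 * (k + 1) := by
        unfold top
        have h3 : p < 2 ^ (k + 1) := lt_of_le_of_lt (Nat.le_of_dvd (Nat.pos_of_ne_zero hn0) hpn) hn2
        have h4 : Nat.log 2 p < k + 1 := Nat.log_lt_of_lt_pow hpp.ne_zero h3
        omega
      have hGle : Gh p ≤ 2 * ∑ k' ∈ S.hvy k0 k, ∑ j' ∈ S.badc k', S.cw R k' j' p := by
        have h3 : S.ctl k0 (top p) R p ≤ S.ctl k0 (min (top p) ⌈S.kap * k⌉₊) R p +
            ∑ k' ∈ S.hvy k0 k, ∑ j' ∈ S.badc k', S.cw R k' j' p := by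
          unfold Sys.ctl
          have hdis : Disjoint (Ico k0 (min (top p) ⌈S.kap * k⌉₊)) (S.hvy k0 k) := by
            rw [disjoint_left]
            intro a ha hb
            unfold Sys.hvy at hb
            rw [mem_Ico] at ha hb
            have h5 := lt_min_iff.mp ha.2
            have h6 := max_le_iff.mp hb.1
            omega
          rw [← sum_union hdis]
          apply sum_le_sum_of_subset_of_nonneg
          · intro a ha
            rw [mem_Ico] at ha
            rw [mem_union, mem_Ico]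
            by_cases h5 : a < ⌈S.kap * k⌉₊
            · left; exact ⟨ha.1, lt_min ha.2 h5⟩
            · right
              unfold Sys.hvy
              rw [mem_Ico]
              exact ⟨max_le ha.1 (not_lt.mp h5), lt_of_lt_of_le ha.2 htop⟩
          · intro i _ _
            exact sum_nonneg fun j _ => cw_nonneg S R i j p
        simp only [hGh]
        linarith
      have hW0 : 0 ≤ S.W k0 R (n / p) := W_nonneg S k0 R hnp
      have hWeq : cm (S.Wp k0 R) (n / p) = S.W k0 R (n / p) := (CM_eq _ _ hnp).symm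
      rw [hWeq]
      calc (n.factorization p : ℝ) * (Gh p * S.W k0 R (n / p)) ≤
          (n.factorization p : ℝ) * ((2 * ∑ k' ∈ S.hvy k0 k, ∑ j' ∈ S.badc k', S.cw R k' j' p) *
            S.W k0 R (n / p)) := by
            gcongr
        _ = ∑ k' ∈ S.hvy k0 k, ∑ j' ∈ S.badc k', ∑ x ∈ (S.act R k' j').filter (fun x => x.1 = p),
            t n (k', j') x := by
            rw [mul_sum, sum_mul, mul_sum]
            refine sum_congr rfl fun k' _ => ?_
            rw [mul_sum, sum_mul, mul_sum]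
            refine sum_congr rfl fun j' _ => ?_
            unfold Sys.cw
            rw [mul_sum, sum_mul, mul_sum]
            refine sum_congr rfl fun x hx => ?_
            have hxp : x.1 = p := (mem_filter.mp hx).2
            simp only [ht]
            rw [hxp]
    refine (sum_le_sum h2).trans ?_
    rw [sum_comm]
    apply sum_le_sum
    intro k' hk'
    rw [sum_comm]
    apply sum_le_sum
    intro j' hj'
    -- fibrewise
    have h3 : ∑ p ∈ n.primeFactors, ∑ x ∈ (S.act R k' j').filter (fun x => x.1 = p), t n (k', j') x =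
        ∑ x ∈ (S.act R k' j').filter (fun x => x.1 ∈ n.primeFactors), t n (k', j') x := by
      rw [← sum_fiberwise_of_maps_to (s := (S.act R k' j').filter (fun x => x.1 ∈ n.primeFactors))
        (t := n.primeFactors) (g := fun x => x.1) (fun x hx => (mem_filter.mp hx).2)]
      refine sum_congr rfl fun p hp => ?_
      congr 1
      ext x
      simp only [mem_filter]
      constructor
      · rintro ⟨a, b⟩
        exact ⟨⟨a, by rw [b]; exact hp⟩, b⟩
      · rintro ⟨⟨a, _⟩, b⟩
        exact ⟨a, b⟩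
    rw [h3]
    apply four_cases
    · intro x hx
      by_cases hx1 : x.1 ∣ n
      · have hnx : n / x.1 ≠ 0 := by
          have hx0 : 0 < x.1 := Nat.pos_of_dvd_of_pos hx1 (Nat.pos_of_ne_zero hn0)
          have := Nat.div_pos (Nat.le_of_dvd (Nat.pos_of_ne_zero hn0) hx1) hx0
          omega
        have h4 := wo_nonneg S R k' j' x.2
        have h5 := W_nonneg S k0 R hnx
        simp only [ht]
        positivity
      · have : n.factorization x.1 = 0 := Nat.factorization_eq_zero_of_not_dvd hx1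
        simp only [ht]
        rw [this]; simp
    · intro x hx hxn
      have hx1 : x.1 ∣ n := Nat.dvd_of_mem_primeFactors hxn
      have hx0 : 0 < x.1 := Nat.pos_of_dvd_of_pos hx1 (Nat.pos_of_ne_zero hn0)
      by_cases hd2 : x.2 ∣ n / x.1
      · by_cases hQ2 : (2 : ℝ) ^ ((S.u (S.cls k' j') + S.c) * k') ≤ ((n / x.1 / x.2 : ℕ) : ℝ)
        · right; left; exact ⟨hx1, hd2, hQ2⟩
        · by_cases hQ3 : 1 < n / x.1 / x.2
          · right; right; left; exact ⟨hx1, hd2, hQ3, not_le.mp hQ2⟩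
          · right; right; right
            refine ⟨hx1, ?_⟩
            unfold Sys.Q4
            have hnx : 0 < n / x.1 := Nat.div_pos (Nat.le_of_dvd (Nat.pos_of_ne_zero hn0) hx1) hx0
            have hx20 : 0 < x.2 := Nat.pos_of_dvd_of_pos hd2 hnx
            have h5 : 0 < n / x.1 / x.2 := Nat.div_pos (Nat.le_of_dvd hnx hd2) hx20
            have h6 : n / x.1 / x.2 = 1 := by omega
            have h7 : n / x.1 = x.2 := by
              have := Nat.div_mul_cancel hd2
              rw [h6, one_mul] at this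
              exact this.symm
            have h8 := Nat.div_mul_cancel hx1
            rw [h7, mul_comm] at h8
            exact h8.symm
      · left; exact ⟨hx1, hd2⟩
  refine (sum_le_sum hpt).trans (le_of_eq ?_)
  unfold Sys.HT
  rw [sum_add_distrib]
  congr 1
  rw [← sum_add_distrib, ← sum_add_distrib, ← sum_add_distrib]
  refine sum_congr rfl fun n _ => ?_
  rw [← sum_add_distrib, ← sum_add_distrib, ← sum_add_distrib]
  refine sum_congr rfl fun k' _ => ?_
  rw [← sum_add_distrib, ← sum_add_distrib, ← sum_add_distrib]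

end Pool.Agent.Helper60.KX
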