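import Pool.Agent.Helper60.KX.Expand

/-! Project KS, task 1705: H12. -/

set_option autoImplicit false
open scoped Classical
open Finset Filter Topology

namespace Pool.Agent.Helper60.KX

open Pool.Agent.Helper16.KS Pool.Agent.Helper33.KS

lemma ev_lin (A a : ℝ) (ha : 0 < a) : ∃ K : ℕ, ∀ k : ℕ, K ≤ k → A * ((k : ℝ) + 1) ≤ (2 : ℝ) ^ (a * k) := by
  have h1 : 1 < (2 : ℝ) ^ a := Real.one_lt_rpow (by norm_num) ha
  have h2 := (tendsto_pow_const_div_const_pow_of_one_lt 1 h1).const_mul (2 * |A|)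
  rw [mul_zero] at h2
  have h4 := h2.eventually (gt_mem_nhds (show (0 : ℝ) < 1 by norm_num))
  obtain ⟨K, hK⟩ := eventually_atTop.mp h4
  refine ⟨max K 1, fun k hk => ?_⟩
  have hk1 : (1:ℝ) ≤ k := by exact_mod_cast (le_max_right _ _).trans hk
  have h5 := (hK k ((le_max_left _ _).trans hk)).le
  have h6 : (0 : ℝ) < ((2 : ℝ) ^ a) ^ k := by positivity
  rw [← mul_div_assoc, div_le_one h6, pow_one] at h5
  rw [Real.rpow_mul (by norm_num), Real.rpow_natCast]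
  refine le_trans ?_ h5
  have h7 := le_abs_self A
  have h8 := abs_nonneg A
  nlinarith

lemma fact_le {n k : ℕ} (hn : n ≠ 0) (h : n < 2 ^ (k + 1)) (p : ℕ) : n.factorization p ≤ k := by
  by_cases hp : p.Prime
  · have h1 : p ^ n.factorization p ≤ n := Nat.ordProj_le p hn
    have h2 : 2 ^ n.factorization p ≤ p ^ n.factorization p := Nat.pow_le_pow_left hp.two_le _
    have h3 : 2 ^ n.factorization p < 2 ^ (k + 1) := lt_of_le_of_lt (h2.trans h1) h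
    have := (Nat.pow_lt_pow_iff_right (by norm_num : 1 < 2)).mp h3
    omega
  · rw [Nat.factorization_eq_zero_of_not_prime _ hp]; omega

lemma ep_pos (S : Sys) : 0 < S.ep := by
  have h1 := S.d_pos
  have h2 := S.d_le
  have h3 := S.c_le
  have hc : 0 < S.c := by
    by_contra hcon
    push Not at hcon
    have : S.c / 10 ^ 5 ≤ 0 := div_nonpos_of_nonpos_of_nonneg hcon (by positivity)
    linarith
  have he : 0 < S.eta := by linarith
  unfold Sys.ep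
  positivity

lemma tau_pos (S : Sys) : 0 < S.tau := by
  have := ep_pos S
  unfold Sys.tau
  positivity

lemma gam_nonneg (S : Sys) (p : ℕ) : 0 ≤ S.gam p := by unfold Sys.gam; positivity

lemma Fh_nonneg (S : Sys) (k0 : ℕ) (R : Set ℕ) (p : ℕ) : 0 ≤ S.Fh k0 R p := by
  unfold Sys.Fh
  split_ifs
  · exact le_rfl
  · exact add_nonneg (bR_nonneg S R p) (gam_nonneg S p)

lemma wd_nonneg (S : Sys) (k m : ℕ) : 0 ≤ S.wd k m := by unfold Sys.wd; positivity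

lemma HT_le_HP (S : Sys) (k0 : ℕ) (R : Set ℕ) (k j : ℕ) (Q : ℕ × ℕ → ℕ → ℕ × ℕ → Prop) (hj : j < nc S.d k)
    (hk : k0 ≤ k) (hSK : S.K ≤ k0) (hk01 : 1 ≤ k0)
    (hwo : ∀ k, k0 ≤ k → ∀ j ∈ S.badc k, ∀ m : ℕ, 1 ≤ m →
      0 ≤ S.wo R k j m ∧ S.wo R k j m ≤ (2 / S.c1) / (k : ℝ) ^ 2 * S.wd k m)
    (hwp : ∀ p : ℕ, p.Prime → 0 ≤ S.Wp k0 R p ∧ S.Wp k0 R p ≤ S.Fh k0 R p) :
    S.HT k0 R k j Q ≤ (4 / S.c1) * ((k : ℝ) + 1) * S.HP k0 R k j Q := by
  have hc1 := S.c1_pos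
  unfold Sys.HT Sys.HP
  rw [mul_sum]
  apply sum_le_sum
  intro n hn
  obtain ⟨hn1, hn2⟩ := cell_bounds S.d_pos hj hn
  have hn0 : n ≠ 0 := by
    have : 0 < 2 ^ k := by positivity
    omega
  rw [mul_sum]
  apply sum_le_sum
  intro k' hk'
  have hk'0 : k0 ≤ k' := by
    unfold Sys.hvy at hk'
    rw [mem_Ico] at hk'
    exact (max_le_iff.mp hk'.1).1
  rw [mul_sum]
  apply sum_le_sum
  intro j' hj'
  rw [mul_sum]
  apply sum_le_sum
  intro x hx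
  rw [mem_filter] at hx
  obtain ⟨hxa, hxn, hQ⟩ := hx
  have hxc : x ∈ S.Cand k' j' := (mem_filter.mp hxa).1
  have hjb := mem_filter.mp hj'
  have hcand := S.cand k' (hSK.trans hk'0) j' (mem_range.mp hjb.1) hjb.2 x hxc
  have hx2 : 1 < x.2 := hcand.2.2.2.1
  obtain ⟨hw0, hw1⟩ := hwo k' hk'0 j' hj' x.2 hx2.le
  have hx0 : 0 < x.1 := hcand.1.pos
  have hnx : n / x.1 ≠ 0 := by
    have := Nat.div_pos (Nat.le_of_dvd (Nat.pos_of_ne_zero hn0) hxn) hx0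
    omega
  have hW : S.W k0 R (n / x.1) ≤ CM (S.Fh k0 R) (n / x.1) :=
    CM_mono hnx (fun p hp _ => (hwp p hp).1) (fun p hp _ => (hwp p hp).2)
  have hW0 := W_nonneg S k0 R hnx
  have hCM0 : 0 ≤ CM (S.Fh k0 R) (n / x.1) := hW0.trans hW
  have hf : (n.factorization x.1 : ℝ) ≤ k + 1 := by
    have := fact_le hn0 hn2 x.1
    have h1 : (n.factorization x.1 : ℝ) ≤ k := by exact_mod_cast this
    linarith
  have hk'1 : (1:ℝ) ≤ k' := by exact_mod_cast hk01.trans hk'0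
  have hwd := wd_nonneg S k' x.2
  have hw2 : S.wo R k' j' x.2 ≤ 2 / S.c1 * S.wd k' x.2 := by
    refine hw1.trans ?_
    apply mul_le_mul_of_nonneg_right _ hwd
    apply div_le_self (by positivity)
    nlinarith
  calc (n.factorization x.1 : ℝ) * (2 * S.wo R k' j' x.2 * S.W k0 R (n / x.1)) ≤
      ((k : ℝ) + 1) * (2 * (2 / S.c1 * S.wd k' x.2) * CM (S.Fh k0 R) (n / x.1)) := by
        gcongr
    _ = 4 / S.c1 * ((k : ℝ) + 1) * (S.wd k' x.2 * CM (S.Fh k0 R) (n / x.1)) := by ring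

/-- (H12) -/
theorem h12 (h1 : WoLe) (h2 : WpLe) : H12 := by
  intro S
  obtain ⟨K1, h1⟩ := h1 S
  obtain ⟨K2, h2⟩ := h2 S
  have hep := ep_pos S
  have hc1 := S.c1_pos
  obtain ⟨K3, hK3⟩ := ev_lin (4 / S.c1 * 40) (S.ep / 100) (by positivity)
  refine ⟨max (max K1 K2) (max (max K3 S.K) 1), fun k0 hk0 R hR k hk j hj => ?_⟩
  have a1 : K1 ≤ k0 := le_trans (le_trans (le_max_left _ _) (le_max_left _ _)) hk0
  have a2 : K2 ≤ k0 := le_trans (le_trans (le_max_right _ _) (le_max_left _ _)) hk0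
  have a3 : K3 ≤ k0 := le_trans (le_trans (le_trans (le_max_left _ _) (le_max_left _ _)) (le_max_right _ _)) hk0
  have a4 : S.K ≤ k0 := le_trans (le_trans (le_trans (le_max_right _ _) (le_max_left _ _)) (le_max_right _ _)) hk0
  have a5 : 1 ≤ k0 := le_trans (le_trans (le_max_right _ _) (le_max_right _ _)) hk0
  have hG := G_nonneg S k
  have hkey := hK3 k (a3.trans hk)
  have hb : ∀ Q : ℕ × ℕ → ℕ → ℕ × ℕ → Prop,
      S.HP k0 R k j Q ≤ (2 : ℝ) ^ (-(S.ep / 100) * k) * S.G k → S.HT k0 R k j Q ≤ S.G k / 40 := by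
    intro Q hQ
    refine (HT_le_HP S k0 R k j Q hj hk a4 a5 (h1 k0 a1 R hR) (h2 k0 a2 R hR)).trans ?_
    have h3 : (2 : ℝ) ^ (S.ep / 100 * k) * (2 : ℝ) ^ (-(S.ep / 100) * k) = 1 := by
      rw [← Real.rpow_add (by norm_num)]
      have : S.ep / 100 * (k:ℝ) + -(S.ep / 100) * k = 0 := by ring
      rw [this, Real.rpow_zero]
    have h4 : (0:ℝ) < (2 : ℝ) ^ (-(S.ep / 100) * k) := by positivity
    have hk1 : (0:ℝ) ≤ (k:ℝ) + 1 := by positivity
    calc 4 / S.c1 * ((k : ℝ) + 1) * S.HP k0 R k j Q ≤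
        4 / S.c1 * ((k : ℝ) + 1) * ((2 : ℝ) ^ (-(S.ep / 100) * k) * S.G k) := by gcongr
      _ = 1 / 40 * ((4 / S.c1 * 40 * ((k : ℝ) + 1)) * (2 : ℝ) ^ (-(S.ep / 100) * k)) * S.G k := by ring
      _ ≤ 1 / 40 * ((2 : ℝ) ^ (S.ep / 100 * k) * (2 : ℝ) ^ (-(S.ep / 100) * k)) * S.G k := by gcongr
      _ = S.G k / 40 := by rw [h3]; ring
  have b1 := hb Sys.Q1 (hR.heavy1 k hk j hj)
  have b2 := hb S.Q2 (hR.heavy2 k hk j hj)
  linarith

end Pool.Agent.Helper60.KX
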