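import Pool.Agent.Helper60.KX.H12

/-! Project KS, task 1705: H4 (own terms). -/

set_option autoImplicit false
open scoped Classical
open Finset Filter Topology

namespace Pool.Agent.Helper60.KX

open Pool.Agent.Helper16.KS Pool.Agent.Helper33.KS

lemma cell_inj {d : ℝ} (hd : 0 < d) {k j k' j' n : ℕ} (hj : j < nc d k) (hj' : j' < nc d k')
    (hn : n ∈ cell d k j) (hn' : n ∈ cell d k' j') : k' = k ∧ j' = j := by
  obtain ⟨a1, a2⟩ := cell_bounds hd hj hn
  obtain ⟨b1, b2⟩ := cell_bounds hd hj' hn'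
  have hk : k' = k := by
    have h1 : 2 ^ k < 2 ^ (k' + 1) := lt_of_le_of_lt a1 b2
    have h2 : 2 ^ k' < 2 ^ (k + 1) := lt_of_le_of_lt b1 a2
    have h3 := (Nat.pow_lt_pow_iff_right (by norm_num : 1 < 2)).mp h1
    have h4 := (Nat.pow_lt_pow_iff_right (by norm_num : 1 < 2)).mp h2
    omega
  subst hk
  refine ⟨rfl, ?_⟩
  unfold cell at hn hn'
  rw [mem_Ico] at hn hn'
  rcases lt_trichotomy j' j with h | h | h
  · have : (j' + 1) * 2 ^ ec d k' ≤ j * 2 ^ ec d k' := Nat.mul_le_mul_right _ h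
    omega
  · exact h
  · have : (j + 1) * 2 ^ ec d k' ≤ j' * 2 ^ ec d k' := Nat.mul_le_mul_right _ h
    omega

lemma small_params (S : Sys) : S.s ≤ 1 / 10 ^ 6 ∧ 0 < S.s ∧ 5 * S.tau ≤ 1 / 10 ^ 6 ∧ 0 < S.c ∧ S.c ≤ 1 / 100 ∧
    0 < S.eta ∧ S.d ≤ 1 / 10 ^ 6 ∧ S.del ≤ 0.06 := by
  have h1 := S.d_pos
  have h2 := S.d_le
  have h3 := S.c_le
  have h4 := S.eta_le
  have h5 := S.del_le
  have hc : 0 < S.c := by
    by_contra hcon
    push Not at hcon
    have : S.c / 10 ^ 5 ≤ 0 := div_nonpos_of_nonpos_of_nonneg hcon (by positivity)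
    linarith
  have he : 0 < S.eta := by linarith
  have hc1 : S.c ≤ 1 / 100 := by linarith
  have hd1 : S.d ≤ 1 / 10 ^ 6 := by
    refine h2.trans ?_
    rw [div_le_div_iff₀ (by positivity) (by positivity)]
    linarith
  refine ⟨?_, ?_, ?_, hc, hc1, he, hd1, by linarith⟩
  · unfold Sys.s; linarith
  · unfold Sys.s; linarith
  · unfold Sys.tau Sys.ep
    have e1 : S.c * S.eta ≤ 1 := by nlinarith
    have e2 : S.c * S.eta * S.d ≤ 1 * (1 / 10 ^ 6) := by
      apply mul_le_mul e1 hd1 h1.le (by norm_num)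
    linarith

/-- number of prime factors -/
lemma omega_le {m k : ℕ} (hm : m ≠ 0) (hk : 10 ≤ k) (hlt : m < 2 ^ (k + 1))
    (hp : ∀ p : ℕ, p.Prime → p ∣ m → (2 : ℝ) ^ ((k : ℝ) / 5) ≤ p) : m.primeFactorsList.length ≤ 5 := by
  have h1 : cm (fun _ => (2 : ℝ) ^ ((k : ℝ) / 5)) m ≤ cm (fun p => (p : ℝ) ^ (1 : ℝ)) m := by
    apply cm_mono
    · intro p _ _; positivity
    · intro p hp1 hp2
      rw [Real.rpow_one]; exact hp p hp1 hp2
  rw [cm_const _ hm, cm_rpow _ hm, Real.rpow_one] at h1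
  have h2 : (m : ℝ) < 2 ^ (k + 1) := by exact_mod_cast hlt
  have h3 : (2 : ℝ) ^ ((k : ℝ) / 5 * m.primeFactorsList.length) < (2 : ℝ) ^ ((k : ℝ) + 1) := by
    rw [Real.rpow_mul (by norm_num), Real.rpow_natCast, Real.rpow_add (by norm_num), Real.rpow_one,
      Real.rpow_natCast, ← pow_succ]
    exact lt_of_le_of_lt h1 h2
  rw [Real.rpow_lt_rpow_left_iff (by norm_num)] at h3
  have hkr : (10 : ℝ) ≤ k := by exact_mod_cast hk
  by_contra hcon
  push Not at hcon
  have h4 : (6 : ℝ) ≤ m.primeFactorsList.length := by exact_mod_cast hcon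
  nlinarith

/-- `W(m)` for products of elements of `R` -/
lemma W_le_base {S : Sys} {k0 k : ℕ} {R : Set ℕ} {m : ℕ} (hm : m ≠ 0) (hk : 10 ≤ k) (hlt : m < 2 ^ (k + 1))
    (hp : ∀ p : ℕ, p.Prime → p ∣ m → (2 : ℝ) ^ ((k : ℝ) / 5) ≤ p)
    (hW : ∀ p : ℕ, p.Prime → p ∣ m → S.Wp k0 R p ≤ 1.001 * S.base p) :
    S.W k0 R m ≤ 1.01 * S.base m := by
  unfold Sys.W
  rw [CM_eq _ m hm]
  have h1 : cm (S.Wp k0 R) m ≤ cm (fun p => 1.001 * S.base p) m :=
    cm_mono (fun p _ _ => Wp_nonneg S k0 R p) hW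
  refine h1.trans ?_
  rw [cm_mul_fun, cm_const _ hm]
  have h2 : cm (fun p => S.base p) m = S.base m := by
    unfold Sys.base
    exact cm_rpow _ hm
  rw [h2]
  apply mul_le_mul_of_nonneg_right _ (base_nonneg S m)
  have h3 := omega_le hm hk hlt hp
  calc (1.001 : ℝ) ^ m.primeFactorsList.length ≤ 1.001 ^ 5 := pow_le_pow_right₀ (by norm_num) h3
    _ ≤ 1.01 := by norm_num

lemma prime_large {S : Sys} {k j : ℕ} {p : ℕ} (hp : p.Prime)
    (h : (2 : ℝ) ^ ((S.u (S.cls k j) + S.c) * k) ≤ (p : ℝ) ^ (1/2 - S.del)) :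
    (2 : ℝ) ^ ((k : ℝ) / 5) ≤ p := by
  obtain ⟨-, -, -, hc, -, -, -, hdel⟩ := small_params S
  have hu := S.u_ge (S.cls k j)
  have hdel0 : 0 ≤ S.del := by
    have := S.eta_le; have := (small_params S).2.2.2.2.2.1; linarith
  have hp1 : (1 : ℝ) ≤ p := by exact_mod_cast hp.one_lt.le
  have hk0 : (0:ℝ) ≤ k := k.cast_nonneg
  have h1 : (p : ℝ) ^ (1/2 - S.del) ≤ (p : ℝ) ^ (1/2 : ℝ) :=
    Real.rpow_le_rpow_of_exponent_le hp1 (by linarith)
  have h2 : (2 : ℝ) ^ ((k : ℝ) / 10) ≤ (2 : ℝ) ^ ((S.u (S.cls k j) + S.c) * k) := by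
    apply Real.rpow_le_rpow_of_exponent_le (by norm_num)
    nlinarith
  have h3 : (2 : ℝ) ^ ((k : ℝ) / 10) ≤ (p : ℝ) ^ (1/2 : ℝ) := h2.trans (h.trans h1)
  have h4 : ((2 : ℝ) ^ ((k : ℝ) / 10)) ^ (2 : ℝ) ≤ ((p : ℝ) ^ (1/2 : ℝ)) ^ (2 : ℝ) :=
    Real.rpow_le_rpow (by positivity) h3 (by norm_num)
  rw [← Real.rpow_mul (by norm_num), ← Real.rpow_mul (by positivity)] at h4
  norm_num at h4
  have e : (k : ℝ) / 10 * 2 = k / 5 := by ring
  rw [e] at h4
  exact h4

lemma own_sum (S : Sys) (k0 : ℕ) (R : Set ℕ) (k j : ℕ) (hk10 : 10 ≤ k) (hKk : S.K ≤ k) (hj : j < nc S.d k)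
    (hbad : S.bad k j)
    (hlow : ((S.Cand k j).card : ℝ) / 2 ≤ S.NN R k j)
    (hW : ∀ p : ℕ, p.Prime → p ∈ R → (2 : ℝ) ^ ((k : ℝ) / 5) ≤ p → S.Wp k0 R p ≤ 1.001 * S.base p) :
    ∑ x ∈ S.act R k j, 2 * S.wo R k j x.2 * S.W k0 R x.2 ≤ 2.02 * S.G k := by
  have hkr : (10:ℝ) ≤ k := by exact_mod_cast hk10
  have hcard := S.many k hKk j hj hbad
  have hc1 := S.c1_pos
  have hNN : 0 < S.NN R k j := by
    refine lt_of_lt_of_le ?_ hlow
    have : 0 < S.c1 * 2 ^ ec S.d k / (k:ℝ) ^ 2 := by positivity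
    linarith
  have h1 : ∀ x ∈ S.act R k j, 2 * S.wo R k j x.2 * S.W k0 R x.2 ≤ 2.02 * (S.G k / S.NN R k j * (1 / S.pr x.2)) := by
    intro x hx
    have hxa := mem_filter.mp hx
    have hcand := S.cand k hKk j hj hbad x hxa.1
    obtain ⟨c1, c2, c3, c4, c5, c6, c7⟩ := hcand
    have hx2 : x.2 ≠ 0 := by omega
    have hx1 := c1.pos
    have hlt : x.2 < 2 ^ (k + 1) := by
      have h3 := (cell_bounds S.d_pos hj c5).2
      have h4 : x.2 ≤ x.1 * x.2 := Nat.le_mul_of_pos_left x.2 hx1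
      omega
    have hpl : ∀ p : ℕ, p.Prime → p ∣ x.2 → (2 : ℝ) ^ ((k : ℝ) / 5) ≤ p := by
      intro p hp hpx
      exact prime_large hp (c6 p hp (Dvd.dvd.mul_left hpx x.1))
    have h5 : S.W k0 R x.2 ≤ 1.01 * S.base x.2 := by
      apply W_le_base hx2 hk10 hlt hpl
      intro p hp hpx
      exact hW p hp (hxa.2 p hp hpx) (hpl p hp hpx)
    have hwo := wo_nonneg S R k j x.2
    have hx2r : (0:ℝ) < x.2 := by exact_mod_cast Nat.pos_of_ne_zero hx2
    have hbase : 0 < S.base x.2 := by unfold Sys.base; positivity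
    have hpr : 0 < S.pr x.2 := by unfold Sys.pr; positivity
    calc 2 * S.wo R k j x.2 * S.W k0 R x.2 ≤ 2 * S.wo R k j x.2 * (1.01 * S.base x.2) := by gcongr
      _ = 2.02 * (S.G k / S.NN R k j * (1 / S.pr x.2)) := by
          unfold Sys.wo
          field_simp
          norm_num
          ring
  refine (sum_le_sum h1).trans ?_
  rw [← mul_sum, ← mul_sum]
  have h2 : ∑ x ∈ S.act R k j, 1 / S.pr x.2 = S.NN R k j := rfl
  rw [h2, div_mul_cancel₀ _ hNN.ne']

lemma HT4_le (S : Sys) (k0 : ℕ) (R : Set ℕ) (k j : ℕ) (hSK : S.K ≤ k0) (hj : j < nc S.d k) :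
    S.HT k0 R k j Sys.Q4 ≤ if S.bad k j then ∑ x ∈ S.act R k j, 2 * S.wo R k j x.2 * S.W k0 R x.2 else 0 := by
  unfold Sys.HT
  -- pointwise in n
  have hpt : ∀ n ∈ cell S.d k j, ∑ k' ∈ S.hvy k0 k, ∑ j' ∈ S.badc k',
      ∑ x ∈ (S.act R k' j').filter (fun x => x.1 ∣ n ∧ Sys.Q4 (k', j') n x),
        (n.factorization x.1 : ℝ) * (2 * S.wo R k' j' x.2 * S.W k0 R (n / x.1)) ≤
      if S.bad k j then ∑ x ∈ (S.act R k j).filter (fun x => x.1 * x.2 = n),
        2 * S.wo R k j x.2 * S.W k0 R x.2 else 0 := by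
    intro n hn
    obtain ⟨hn1, hn2⟩ := cell_bounds S.d_pos hj hn
    have hn0 : n ≠ 0 := by
      have : 0 < 2 ^ k := by positivity
      omega
    have hzero : ∀ k' ∈ S.hvy k0 k, ∀ j' ∈ S.badc k', ¬ (k' = k ∧ j' = j) →
        (S.act R k' j').filter (fun x => x.1 ∣ n ∧ Sys.Q4 (k', j') n x) = ∅ := by
      intro k' hk' j' hj' hne
      rw [filter_eq_empty_iff]
      intro x hx hcon
      have hxa := mem_filter.mp hx
      have hb := mem_filter.mp hj'
      have hk'0 : k0 ≤ k' := by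
        unfold Sys.hvy at hk'
        rw [mem_Ico] at hk'
        exact (max_le_iff.mp hk'.1).1
      have hc := (S.cand k' (hSK.trans hk'0) j' (mem_range.mp hb.1) hb.2 x hxa.1).2.2.2.2.1
      have hq : n = x.1 * x.2 := hcon.2
      rw [← hq] at hc
      exact hne (cell_inj S.d_pos hj (mem_range.mp hb.1) hn hc)
    have hW0 : ∀ m : ℕ, m ≠ 0 → 0 ≤ S.W k0 R m := fun m hm => W_nonneg S k0 R hm
    by_cases hkj : k ∈ S.hvy k0 k ∧ j ∈ S.badc k
    · obtain ⟨hk1, hj1⟩ := hkj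
      have hbad : S.bad k j := (mem_filter.mp hj1).2
      have hk0k : k0 ≤ k := by
        unfold Sys.hvy at hk1
        rw [mem_Ico] at hk1
        exact (max_le_iff.mp hk1.1).1
      rw [if_pos hbad]
      rw [sum_eq_single_of_mem k hk1, sum_eq_single_of_mem j hj1]
      · have e : (S.act R k j).filter (fun x => x.1 ∣ n ∧ Sys.Q4 (k, j) n x) =
            (S.act R k j).filter (fun x => x.1 * x.2 = n) := by
          apply filter_congr
          intro x _
          unfold Sys.Q4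
          constructor
          · rintro ⟨_, h⟩; exact h.symm
          · intro h; exact ⟨⟨x.2, h.symm⟩, h.symm⟩
        rw [e]
        apply sum_le_sum
        intro x hx
        rw [mem_filter] at hx
        obtain ⟨hxa, hxn⟩ := hx
        have hxc := (mem_filter.mp hxa).1
        obtain ⟨c1, c2, c3, c4, c5, c6, c7⟩ := S.cand k (hSK.trans hk0k) j hj hbad x hxc
        have h1 : n / x.1 = x.2 := by
          rw [← hxn]; exact Nat.mul_div_cancel_left _ c1.pos
        have h2 : n.factorization x.1 ≤ 1 := by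
          rw [← hxn]
          exact c3.natFactorization_le_one _
        rw [h1]
        have h3 := wo_nonneg S R k j x.2
        have h4 := hW0 x.2 (by omega)
        have h5 : (n.factorization x.1 : ℝ) ≤ 1 := by exact_mod_cast h2
        have h6 : 0 ≤ 2 * S.wo R k j x.2 * S.W k0 R x.2 := by positivity
        nlinarith
      · intro j' hj' hne
        rw [hzero k hk1 j' hj' (fun h => hne h.2), sum_empty]
      · intro k' hk' hne
        apply sum_eq_zero
        intro j' hj'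
        rw [hzero k' hk' j' hj' (fun h => hne h.1), sum_empty]
    · have h0 : ∑ k' ∈ S.hvy k0 k, ∑ j' ∈ S.badc k',
          ∑ x ∈ (S.act R k' j').filter (fun x => x.1 ∣ n ∧ Sys.Q4 (k', j') n x),
            (n.factorization x.1 : ℝ) * (2 * S.wo R k' j' x.2 * S.W k0 R (n / x.1)) = 0 := by
        apply sum_eq_zero
        intro k' hk'
        apply sum_eq_zero
        intro j' hj'
        rw [hzero k' hk' j' hj', sum_empty]
        rintro ⟨rfl, rfl⟩
        exact hkj ⟨hk', hj'⟩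
      rw [h0]
      split_ifs with hbad
      · apply sum_nonneg
        intro x hx
        rw [mem_filter] at hx
        have h3 := wo_nonneg S R k j x.2
        have hx2 : x.2 ≠ 0 := by
          intro h
          have := hx.2
          rw [h, mul_zero] at this
          exact hn0 this.symm
        have h4 := hW0 x.2 hx2
        positivity
      · exact le_rfl
  refine (sum_le_sum hpt).trans ?_
  by_cases hbad : S.bad k j
  · simp only [hbad, if_true]
    have hle : ∑ n ∈ cell S.d k j, ∑ x ∈ (S.act R k j).filter (fun x => x.1 * x.2 = n),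
        2 * S.wo R k j x.2 * S.W k0 R x.2 =
        ∑ x ∈ (S.act R k j).filter (fun x => x.1 * x.2 ∈ cell S.d k j), 2 * S.wo R k j x.2 * S.W k0 R x.2 := by
      rw [← sum_fiberwise_of_maps_to (s := (S.act R k j).filter (fun x => x.1 * x.2 ∈ cell S.d k j))
        (t := cell S.d k j) (g := fun x => x.1 * x.2) (fun x hx => (mem_filter.mp hx).2)]
      refine sum_congr rfl fun n hn => ?_
      congr 1
      ext x
      simp only [mem_filter]
      constructor
      · rintro ⟨a, b⟩; exact ⟨⟨a, by rw [b]; exact hn⟩, b⟩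
      · rintro ⟨⟨a, _⟩, b⟩; exact ⟨a, b⟩
    rw [hle]
    apply sum_le_sum_of_subset_of_nonneg (filter_subset _ _)
    intro x _ _
    have h3 := wo_nonneg S R k j x.2
    by_cases hx2 : x.2 = 0
    · have : S.W k0 R x.2 = 1 := by rw [hx2]; unfold Sys.W CM; simp
      rw [this]; positivity
    · have h4 := W_nonneg S k0 R hx2
      positivity
  · simp [hbad]

/-- (H4) -/
theorem h4 (h1 : OrdLe) (h2 : CtlLe) : H4 := by
  intro S
  obtain ⟨C, K1, h1⟩ := h1 S
  obtain ⟨K2, h2⟩ := h2 S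
  obtain ⟨hs1, hs0, htau, hc, hc1, heta, hd, hdel⟩ := small_params S
  obtain ⟨K3, hK3⟩ := ev_lin (1000 * (2 * |C| + 1)) 0.08 (by norm_num)
  refine ⟨max (max K1 K2) (max (max K3 S.K) 10), fun k0 hk0 R hR k hk j hj => ?_⟩
  have a1 : K1 ≤ k0 := le_trans (le_trans (le_max_left _ _) (le_max_left _ _)) hk0
  have a2 : K2 ≤ k0 := le_trans (le_trans (le_max_right _ _) (le_max_left _ _)) hk0
  have a3 : K3 ≤ k0 := le_trans (le_trans (le_trans (le_max_left _ _) (le_max_left _ _)) (le_max_right _ _)) hk0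
  have a4 : S.K ≤ k0 := le_trans (le_trans (le_trans (le_max_right _ _) (le_max_left _ _)) (le_max_right _ _)) hk0
  have a5 : 10 ≤ k0 := le_trans (le_trans (le_max_right _ _) (le_max_right _ _)) hk0
  have hG := G_nonneg S k
  have hW : ∀ p : ℕ, p.Prime → p ∈ R → (2 : ℝ) ^ ((k : ℝ) / 5) ≤ p → S.Wp k0 R p ≤ 1.001 * S.base p := by
    intro p hp hpR hpl
    obtain ⟨-, ho⟩ := h1 k0 a1 p hp
    obtain ⟨-, hct, -⟩ := h2 k0 a2 R hR p (top p) le_rfl
    have hkr : (10:ℝ) ≤ k := by exact_mod_cast a5.trans hk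
    have hp4 : (4:ℝ) ≤ p := by
      refine le_trans ?_ hpl
      calc (4:ℝ) = (2:ℝ) ^ (2:ℝ) := by norm_num
        _ ≤ _ := Real.rpow_le_rpow_of_exponent_le (by norm_num) (by linarith)
    have hp0 : (0:ℝ) < p := by linarith
    have hp1 : (1:ℝ) ≤ p := by linarith
    have hlog : 1 ≤ Real.log p := by
      have h3 : Real.log 4 ≤ Real.log p := Real.log_le_log (by norm_num) hp4
      have h4 : Real.log 4 = 2 * Real.log 2 := by
        rw [show (4:ℝ) = 2 ^ 2 by norm_num, Real.log_pow]; norm_num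
      have := Real.log_two_gt_d9
      linarith
    have hlog3 : (1:ℝ) ≤ Real.log p ^ 3 := one_le_pow₀ hlog
    have hpw : (p:ℝ) ^ (S.s - 1) ≤ (p:ℝ) ^ (S.s - 1 + 5 * S.tau) := by
      apply Real.rpow_le_rpow_of_exponent_le hp1
      have := tau_pos S
      linarith
    have ho2 : S.ordw k0 p ≤ |C| * (p:ℝ) ^ (S.s - 1 + 5 * S.tau) := by
      refine ho.trans ?_
      have e1 : (p:ℝ) ^ (S.s - 1) / Real.log p ^ 3 ≤ (p:ℝ) ^ (S.s - 1 + 5 * S.tau) :=
        (div_le_self (by positivity) hlog3).trans hpw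
      calc C * ((p:ℝ) ^ (S.s - 1) / Real.log p ^ 3) ≤ |C| * ((p:ℝ) ^ (S.s - 1) / Real.log p ^ 3) := by
            apply mul_le_mul_of_nonneg_right (le_abs_self C) (by positivity)
        _ ≤ _ := mul_le_mul_of_nonneg_left e1 (abs_nonneg C)
    have hbase : 0 < S.base p := by unfold Sys.base; positivity
    have hratio : (p:ℝ) ^ (S.s - 1 + 5 * S.tau) ≤ (p:ℝ) ^ (-(0.4:ℝ)) * S.base p := by
      unfold Sys.base
      rw [← Real.rpow_add hp0]
      apply Real.rpow_le_rpow_of_exponent_le hp1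
      linarith
    have hsm : 1000 * (2 * |C| + 1) * (p:ℝ) ^ (-(0.4:ℝ)) ≤ 1 := by
      have e2 : (2:ℝ) ^ ((0.08:ℝ) * k) ≤ (p:ℝ) ^ (0.4:ℝ) := by
        have : ((2 : ℝ) ^ ((k : ℝ) / 5)) ^ (0.4:ℝ) ≤ (p:ℝ) ^ (0.4:ℝ) :=
          Real.rpow_le_rpow (by positivity) hpl (by norm_num)
        rw [← Real.rpow_mul (by norm_num)] at this
        have e3 : (k:ℝ) / 5 * 0.4 = 0.08 * k := by ring
        rwa [e3] at this
      have e4 := (hK3 k (a3.trans hk)).trans e2
      have e5 : 1000 * (2 * |C| + 1) ≤ (p:ℝ) ^ (0.4:ℝ) := by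
        refine le_trans ?_ e4
        have : 0 ≤ 1000 * (2 * |C| + 1) := by positivity
        nlinarith
      rw [Real.rpow_neg hp0.le, ← div_eq_mul_inv, div_le_one (by positivity)]
      exact e5
    unfold Sys.Wp Sys.bR
    rw [if_pos hpR]
    have hA := abs_nonneg C
    calc S.base p + 2 * S.ordw k0 p + 2 * S.ctl k0 (top p) R p ≤
        S.base p + 2 * (|C| * (p:ℝ) ^ (S.s - 1 + 5 * S.tau)) + (p:ℝ) ^ (S.s - 1 + 5 * S.tau) := by
          linarith
      _ = S.base p + (2 * |C| + 1) * (p:ℝ) ^ (S.s - 1 + 5 * S.tau) := by ring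
      _ ≤ S.base p + (2 * |C| + 1) * ((p:ℝ) ^ (-(0.4:ℝ)) * S.base p) := by gcongr
      _ = S.base p + (1000 * (2 * |C| + 1) * (p:ℝ) ^ (-(0.4:ℝ))) * S.base p / 1000 := by ring
      _ ≤ S.base p + 1 * S.base p / 1000 := by gcongr
      _ = 1.001 * S.base p := by ring
  refine (HT4_le S k0 R k j a4 hj).trans ?_
  by_cases hbad : S.bad k j
  · simp only [hbad, if_true]
    have hjb : j ∈ S.badc k := mem_filter.mpr ⟨mem_range.mpr hj, hbad⟩
    have := own_sum S k0 R k j (a5.trans hk) (a4.trans hk) hj hbad (hR.lower k hk j hjb) hW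
    linarith
  · simp only [hbad, if_false]
    linarith

end Pool.Agent.Helper60.KX
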