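import Pool.Agent.Helper60.KX.SysA
import Pool.Agent.Helper40.KS.Win

/-! Project KS, task 1712: the system exists. -/

set_option autoImplicit false
open scoped Classical
open Finset Filter Topology

namespace Pool.Agent.Helper60.KX

open Pool.Agent.Helper16.KS
open Pool.Agent.Helper29.KD (PMx nEx)
open Pool.Agent.Helper60.KS (em nE2)

/-- exponent of the second class -/
noncomputable def mu2 (k : ℕ) : ℕ := ⌊(0.3958 : ℝ) * (k : ℝ)⌋₊

noncomputable def sbad (d c1 : ℝ) (k j : ℕ) : Prop := (npr d k j : ℝ) < c1 * 2 ^ ec d k / k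

noncomputable def scls (d c1 : ℝ) (k j : ℕ) : Fin 3 :=
  if c1 * 2 ^ ec d k / (k:ℝ) ^ 2 ≤ ((candP d (em k) k j).card : ℝ) then 0
  else if c1 * 2 ^ ec d k / (k:ℝ) ^ 2 ≤ ((candP d (mu2 k) k j).card : ℝ) then 1
  else 2

noncomputable def scand (d c1 : ℝ) (k j : ℕ) : Finset (ℕ × ℕ) :=
  if scls d c1 k j = 0 then candP d (em k) k j
  else if scls d c1 k j = 1 then candP d (mu2 k) k j
  else candR d k j

noncomputable def su : Fin 3 → ℝ := ![0.2156, 0.172, 0.1042]

lemma cls_cases (d c1 : ℝ) (k j : ℕ) :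
    (scls d c1 k j = 0 ∧ scand d c1 k j = candP d (em k) k j ∧
      c1 * 2 ^ ec d k / (k:ℝ) ^ 2 ≤ ((candP d (em k) k j).card : ℝ)) ∨
    (scls d c1 k j = 1 ∧ scand d c1 k j = candP d (mu2 k) k j ∧
      ((candP d (em k) k j).card : ℝ) < c1 * 2 ^ ec d k / (k:ℝ) ^ 2 ∧
      c1 * 2 ^ ec d k / (k:ℝ) ^ 2 ≤ ((candP d (mu2 k) k j).card : ℝ)) ∨
    (scls d c1 k j = 2 ∧ scand d c1 k j = candR d k j ∧
      ((candP d (mu2 k) k j).card : ℝ) < c1 * 2 ^ ec d k / (k:ℝ) ^ 2) := by
  unfold scand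
  by_cases h1 : c1 * 2 ^ ec d k / (k:ℝ) ^ 2 ≤ ((candP d (em k) k j).card : ℝ)
  · left
    have : scls d c1 k j = 0 := by unfold scls; rw [if_pos h1]
    exact ⟨this, by rw [if_pos this], h1⟩
  · by_cases h2 : c1 * 2 ^ ec d k / (k:ℝ) ^ 2 ≤ ((candP d (mu2 k) k j).card : ℝ)
    · right; left
      have : scls d c1 k j = 1 := by unfold scls; rw [if_neg h1, if_pos h2]
      exact ⟨this, by rw [this]; simp, not_le.mp h1, h2⟩
    · right; right
      have : scls d c1 k j = 2 := by unfold scls; rw [if_neg h1, if_neg h2]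
      exact ⟨this, by rw [this]; simp, not_le.mp h2⟩

lemma ecw_zero (d : ℝ) (k : ℕ) : Pool.Agent.Helper60.KS.ecw 0 d k = ec d k := by
  unfold Pool.Agent.Helper60.KS.ecw ec
  rw [add_zero]

lemma su0 : su 0 = 0.2156 := rfl
lemma su1 : su 1 = 0.172 := rfl
lemma su2 : su 2 = 0.1042 := rfl

/-- bounds of the exponents -/
lemma mu_bounds {k : ℕ} (hk : 1000 ≤ k) :
    ((0.4 : ℝ) * k ≤ em k ∧ (em k : ℝ) ≤ 0.495 * k ∧ (0.494 : ℝ) * k ≤ em k ∧ 2 * em k + 2 < k) ∧
    ((0.39 : ℝ) * k ≤ mu2 k ∧ (mu2 k : ℝ) ≤ 0.3958 * k ∧ 2 * mu2 k + 2 < k) := by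
  have hkr : (1000 : ℝ) ≤ k := by exact_mod_cast hk
  obtain ⟨h1, h2⟩ := Pool.Agent.Helper60.KE.em_bounds k
  have h3 : (0.3958 : ℝ) * k - 1 < mu2 k := by
    have := Nat.lt_floor_add_one ((0.3958 : ℝ) * (k : ℝ))
    unfold mu2; linarith
  have h4 : (mu2 k : ℝ) ≤ 0.3958 * k := by
    unfold mu2
    exact Nat.floor_le (by positivity)
  refine ⟨⟨by linarith, h2, by linarith, ?_⟩, by linarith, h4, ?_⟩
  · have : ((2 * em k + 2 : ℕ) : ℝ) < k := by push_cast; linarith
    exact_mod_cast this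
  · have : ((2 * mu2 k + 2 : ℕ) : ℝ) < k := by push_cast; linarith
    exact_mod_cast this

/-- **the control system exists** -/
theorem existsSys (hpow : ∃ η : ℝ, 0 < η ∧ η ≤ 1/100 ∧ PowC (1/100) η) : ExistsSys := by
  obtain ⟨η, hη0, hη1, hpow⟩ := hpow
  set c : ℝ := min (η / 10) (1/1000) with hc
  have hc0 : 0 < c := lt_min (by positivity) (by norm_num)
  have hc1 : c ≤ η / 10 := min_le_left _ _
  have hc2 : c ≤ 1/1000 := min_le_right _ _
  obtain ⟨dA, hdA, hA⟩ := Pool.Agent.Helper60.KC.count_000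
  obtain ⟨dB, hdB, hB⟩ := Pool.Agent.Helper60.KE.countE2
  obtain ⟨dC, hdC, hC⟩ := Pool.Agent.Helper1.KF.class3
  set d : ℝ := min (min dA dB) (min dC (c / 10 ^ 5)) with hd
  have hd0 : 0 < d := lt_min (lt_min hdA hdB) (lt_min hdC (by positivity))
  have hd1 : d ≤ dA := (min_le_left _ _).trans (min_le_left _ _)
  have hd2 : d ≤ dB := (min_le_left _ _).trans (min_le_right _ _)
  have hd3 : d ≤ dC := (min_le_right _ _).trans (min_le_left _ _)
  have hd4 : d ≤ c / 10 ^ 5 := (min_le_right _ _).trans (min_le_right _ _)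
  have hd5 : d ≤ 1/10000 := by
    refine hd4.trans ?_
    rw [div_le_div_iff₀ (by positivity) (by positivity)]
    linarith
  obtain ⟨cA, hcA, KA, hA⟩ := hA d hd0 hd1
  obtain ⟨cB, hcB, KB, hB⟩ := hB d hd0 hd2
  obtain ⟨cC, hcC, KC, hC⟩ := hC d hd0 hd3
  obtain ⟨cr, hcr, KR, hR⟩ := rset_lower hd0 hd5
  obtain ⟨C1, hC1, K1, hW1⟩ := Pool.Agent.Helper40.KS.pairs_bt (θ₁ := 0.39) (θ₂ := 0.4955) (by norm_num) (by norm_num)
  obtain ⟨C2, hC2, K2, hW2⟩ := Pool.Agent.Helper40.KS.pairs_rough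
  obtain ⟨C3, hC3, K3, hW3⟩ := Pool.Agent.Helper40.KS.rough_up
  set c1 : ℝ := min (min cA cB) (min cC (min (cr / 2) 1)) with hc1d
  have hc10 : 0 < c1 := lt_min (lt_min hcA hcB) (lt_min hcC (lt_min (by positivity) one_pos))
  have hcA1 : c1 ≤ cA := (min_le_left _ _).trans (min_le_left _ _)
  have hcB1 : c1 ≤ cB := (min_le_left _ _).trans (min_le_right _ _)
  have hcC1 : c1 ≤ cC := (min_le_right _ _).trans (min_le_left _ _)
  have hcr1 : c1 ≤ cr / 2 := (min_le_right _ _).trans ((min_le_right _ _).trans (min_le_left _ _))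
  have hc11 : c1 ≤ 1 := (min_le_right _ _).trans ((min_le_right _ _).trans (min_le_right _ _))
  set CC : ℝ := max 1 ((C1 + C2 + C3) / c1) with hCC
  have hCC1 : 1 ≤ CC := le_max_left _ _
  have hCCa : C1 / c1 ≤ CC := le_trans (div_le_div_of_nonneg_right (by linarith) hc10.le) (le_max_right _ _)
  have hCCb : C2 / c1 ≤ CC := le_trans (div_le_div_of_nonneg_right (by linarith) hc10.le) (le_max_right _ _)
  have hCCc : C3 / c1 ≤ CC := le_trans (div_le_div_of_nonneg_right (by linarith) hc10.le) (le_max_right _ _)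
  set K : ℕ := max (max (max KA KB) (max KC KR)) (max (max K1 K2) (max K3 1000)) with hKdef
  have hK : ∀ k : ℕ, K ≤ k → (KA ≤ k ∧ KB ≤ k ∧ KC ≤ k ∧ KR ≤ k) ∧ (K1 ≤ k ∧ K2 ≤ k ∧ K3 ≤ k ∧ 1000 ≤ k) := by
    intro k hk
    rw [hKdef] at hk
    simp only [max_le_iff] at hk
    omega
  -- the lower bound for the class 2 candidates
  have hrset : ∀ k : ℕ, K ≤ k → ∀ j < nc d k, sbad d c1 k j → c1 * 2 ^ ec d k / k ≤ ((candR d k j).card : ℝ) := by
    intro k hk j hj hb
    obtain ⟨⟨-, -, -, h1⟩, -, -, -, h2⟩ := hK k hk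
    have h3 := hR k h1 j hj
    rw [card_candR hd0 (by omega) hj]
    have h4 : 2 * (c1 * 2 ^ ec d k / k) ≤ cr * 2 ^ ec d k / k := by
      rw [← mul_div_assoc, ← mul_assoc]
      apply div_le_div_of_nonneg_right _ (by positivity)
      apply mul_le_mul_of_nonneg_right _ (by positivity)
      linarith
    have h5 : (npr d k j : ℝ) < c1 * 2 ^ ec d k / k := hb
    linarith
  have hk2k : ∀ k : ℕ, 1000 ≤ k → c1 * 2 ^ ec d k / (k:ℝ) ^ 2 ≤ c1 * 2 ^ ec d k / k := by
    intro k hk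
    have hkr : (1000 : ℝ) ≤ k := by exact_mod_cast hk
    apply div_le_div_of_nonneg_left (by positivity) (by linarith)
    nlinarith
  refine ⟨{ d := d, c := c, eta := η, del := 1/100, c1 := c1, C1 := CC, K := K, u := su,
            bad := sbad d c1, cls := scls d c1, Cand := scand d c1,
            d_pos := hd0, d_le := hd4, c_le := hc1, eta_le := hη1, del_le := by norm_num,
            c1_pos := hc10, c1_le := hc11, C1_ge := hCC1, K_pos := ?_,
            u_ge := ?_, u_le := ?_, pow := hpow, few := ?_, good := ?_, cand := ?_, inj := ?_,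
            many := ?_, win1 := ?_, win2 := ?_ }⟩
  · -- K_pos
    have h1 : 1000 ≤ max K3 1000 := le_max_right _ _
    have h2 : max K3 1000 ≤ max (max K1 K2) (max K3 1000) := le_max_right _ _
    have h3 : max (max K1 K2) (max K3 1000) ≤ K := le_max_right _ _
    omega
  · -- u_ge
    intro i
    fin_cases i
    · show 1/10 ≤ su 0; rw [su0]; norm_num
    · show 1/10 ≤ su 1; rw [su1]; norm_num
    · show 1/10 ≤ su 2; rw [su2]; norm_num
  · intro i
    fin_cases i
    · show su 0 ≤ 0.22; rw [su0]; norm_num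
    · show su 1 ≤ 0.22; rw [su1]; norm_num
    · show su 2 ≤ 0.22; rw [su2]; norm_num
  · -- few
    intro k hk i
    obtain ⟨⟨a1, a2, a3, a4⟩, b1, b2, b3, b4⟩ := hK k hk
    have hkr : (1000 : ℝ) ≤ k := by exact_mod_cast b4
    have hH : (0:ℝ) ≤ 2 ^ ec d k := by positivity
    fin_cases i
    · show _ ≤ (2:ℝ) ^ (su 0 * (k:ℝ))
      rw [su0]
      refine le_trans ?_ (hA k a1)
      rw [ecw_zero]
      have hsub : ((range (nc d k)).filter (fun j => sbad d c1 k j ∧ scls d c1 k j = 0)) ⊆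
          (range (2 ^ (k - ec d k))).filter (fun j =>
            (Pool.Agent.Helper60.KS.npr k (ec d k) j : ℝ) < cA * 2 ^ ec d k / k) := by
        intro j hj
        rw [mem_filter] at hj ⊢
        refine ⟨hj.1, lt_of_lt_of_le hj.2.1 ?_⟩
        gcongr
      exact_mod_cast card_le_card hsub
    · show _ ≤ (2:ℝ) ^ (su 1 * (k:ℝ))
      rw [su1]
      refine le_trans ?_ (hB k a2)
      have hsub : ((range (nc d k)).filter (fun j => sbad d c1 k j ∧ scls d c1 k j = 1)) ⊆
          (range (2 ^ (k - ec d k))).filter (fun j => (nE2 k (ec d k) j : ℝ) < cB * 2 ^ ec d k / (k:ℝ) ^ 2) := by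
        intro j hj
        rw [mem_filter] at hj ⊢
        refine ⟨hj.1, ?_⟩
        obtain ⟨-, hcls⟩ := hj.2
        have e : nE2 k (ec d k) j = nEx (em k) k (ec d k) j := rfl
        rcases cls_cases d c1 k j with h | h | h
        · rw [h.1] at hcls; exact absurd hcls (by decide)
        · rw [e, ← card_candP]
          refine lt_of_lt_of_le h.2.2.1 ?_
          gcongr
        · rw [h.1] at hcls; exact absurd hcls (by decide)
      exact_mod_cast card_le_card hsub
    · show _ ≤ (2:ℝ) ^ (su 2 * (k:ℝ))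
      rw [su2]
      refine le_trans ?_ (hC k a3)
      have hsub : ((range (nc d k)).filter (fun j => sbad d c1 k j ∧ scls d c1 k j = 2)) ⊆
          (range (2 ^ (k - ec d k))).filter (fun j =>
            (nEx ⌊(0.3958 : ℝ) * (k : ℝ)⌋₊ k (ec d k) j : ℝ) < cC * 2 ^ ec d k / (k:ℝ) ^ 2) := by
        intro j hj
        rw [mem_filter] at hj ⊢
        refine ⟨hj.1, ?_⟩
        obtain ⟨-, hcls⟩ := hj.2
        rcases cls_cases d c1 k j with h | h | h
        · rw [h.1] at hcls; exact absurd hcls (by decide)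
        · rw [h.1] at hcls; exact absurd hcls (by decide)
        · have h5 := h.2.2
          rw [card_candP] at h5
          refine lt_of_lt_of_le h5 ?_
          gcongr
      exact_mod_cast card_le_card hsub
  · -- good
    intro k _ j _ hb
    exact not_lt.mp hb
  · -- cand
    intro k hk j hj hb x hx
    obtain ⟨-, b1, b2, b3, b4⟩ := hK k hk
    have hkr : (1000 : ℝ) ≤ k := by exact_mod_cast b4
    obtain ⟨⟨m1, m2, m3, m4⟩, n1, n2, n3⟩ := mu_bounds b4
    rcases cls_cases d c1 k j with h | h | h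
    · rw [h.2.1] at hx
      rw [h.1, su0]
      exact candP_facts hd0 hj m4 (by omega) (by nlinarith) (by nlinarith) hx
    · rw [h.2.1] at hx
      rw [h.1, su1]
      exact candP_facts hd0 hj n3 (by omega) (by nlinarith) (by nlinarith) hx
    · rw [h.2.1] at hx
      rw [h.1, su2]
      exact candR_facts hd0 hj (by omega) (by linarith) (by linarith) hx
  · -- inj
    intro k hk j hj hb x hx y hy hxy
    obtain ⟨-, b1, b2, b3, b4⟩ := hK k hk
    obtain ⟨⟨m1, m2, m3, m4⟩, n1, n2, n3⟩ := mu_bounds b4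
    rcases cls_cases d c1 k j with h | h | h
    · rw [h.2.1] at hx hy
      exact candP_inj hd0 hj m4 hx hy hxy
    · rw [h.2.1] at hx hy
      exact candP_inj hd0 hj n3 hx hy hxy
    · rw [h.2.1] at hx hy
      exact candR_inj hd0 (by omega) hj hx hy hxy
  · -- many
    intro k hk j hj hb
    obtain ⟨-, b1, b2, b3, b4⟩ := hK k hk
    rcases cls_cases d c1 k j with h | h | h
    · rw [h.2.1]; exact h.2.2
    · rw [h.2.1]; exact h.2.2.2
    · rw [h.2.1]; exact (hk2k k b4).trans (hrset k hk j hj hb)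
  · -- win1
    intro k hk j hj hb x h hh
    obtain ⟨-, b1, b2, b3, b4⟩ := hK k hk
    have hkr : (1000 : ℝ) ≤ k := by exact_mod_cast b4
    obtain ⟨⟨m1, m2, m3, m4⟩, n1, n2, n3⟩ := mu_bounds b4
    have hH : (0:ℝ) < 2 ^ ec d k := by positivity
    have hh0 : (0:ℝ) ≤ h := Nat.cast_nonneg h
    have hP : ∀ μ : ℕ, (0.39:ℝ) * k ≤ μ → (μ:ℝ) ≤ 0.4955 * k →
        c1 * 2 ^ ec d k / (k:ℝ) ^ 2 ≤ ((candP d μ k j).card : ℝ) →
        (((candP d μ k j).filter (fun y => x ≤ y.1 * y.2 ∧ y.1 * y.2 < x + h)).card : ℝ) ≤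
        CC * (h / 2 ^ ec d k) * (candP d μ k j).card := by
      intro μ hμ1 hμ2 hcard
      have h1 := hW1 k b1 μ hμ1 hμ2 x h hh ((candP d μ k j).filter (fun y => x ≤ y.1 * y.2 ∧ y.1 * y.2 < x + h)) (by
        intro y hy
        rw [mem_filter] at hy
        obtain ⟨⟨f1, ⟨f2, f3⟩, f4⟩, f5, f6⟩ := mem_candP.mp hy.1
        exact ⟨f5, f4, f2, f3, hy.2.1, hy.2.2⟩)
      refine h1.trans ?_
      calc C1 * (h / (k:ℝ) ^ 2) = C1 / c1 * (h / 2 ^ ec d k) * (c1 * 2 ^ ec d k / (k:ℝ) ^ 2) := by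
            field_simp
        _ ≤ CC * (h / 2 ^ ec d k) * (candP d μ k j).card := by gcongr
    rcases cls_cases d c1 k j with hc' | hc' | hc'
    · rw [hc'.2.1]
      exact hP (em k) (by linarith) (by linarith) hc'.2.2
    · rw [hc'.2.1]
      exact hP (mu2 k) n1 (by linarith) hc'.2.2.2
    · rw [hc'.2.1]
      have h2 := hrset k hk j hj hb
      have hT : ((candR d k j).filter (fun y => x ≤ y.1 * y.2 ∧ y.1 * y.2 < x + h)).card =
          (((candR d k j).filter (fun y => x ≤ y.1 * y.2 ∧ y.1 * y.2 < x + h)).image (fun y => y.1 * y.2)).card := by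
        rw [card_image_of_injOn]
        intro y hy y' hy' he
        rw [mem_coe, mem_filter] at hy hy'
        exact candR_inj hd0 (by omega) hj hy.1 hy'.1 he
      have hh2 : (2 : ℝ) ^ (0.38 * (k : ℝ)) ≤ h := by
        refine le_trans ?_ hh
        apply Real.rpow_le_rpow_of_exponent_le (by norm_num)
        linarith
      have h3 := hW3 k b3 x h hh2 (((candR d k j).filter (fun y => x ≤ y.1 * y.2 ∧ y.1 * y.2 < x + h)).image
        (fun y => y.1 * y.2)) (by
        intro n hn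
        obtain ⟨y, hy, rfl⟩ := mem_image.mp hn
        rw [mem_filter] at hy
        obtain ⟨n', hn', f1, f2, f3⟩ := mem_candR hd0 (by omega) hj hy.1
        refine ⟨hy.2.1, hy.2.2, fun p hp hpd => ?_⟩
        rw [f1] at hpd
        refine lt_of_le_of_lt ?_ ((mem_filter.mp hn').2.2.2.1 p hp hpd)
        apply Real.rpow_le_rpow_of_exponent_le (by norm_num)
        linarith)
      rw [hT]
      refine h3.trans ?_
      calc C3 * (h / (k:ℝ)) = C3 / c1 * (h / 2 ^ ec d k) * (c1 * 2 ^ ec d k / (k:ℝ)) := by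
            field_simp
        _ ≤ CC * (h / 2 ^ ec d k) * (candR d k j).card := by gcongr
  · -- win2
    intro k hk j hj hb x h hh
    obtain ⟨-, b1, b2, b3, b4⟩ := hK k hk
    have hkr : (1000 : ℝ) ≤ k := by exact_mod_cast b4
    obtain ⟨⟨m1, m2, m3, m4⟩, n1, n2, n3⟩ := mu_bounds b4
    have hH : (0:ℝ) < 2 ^ ec d k := by positivity
    have hh0 : (0:ℝ) ≤ h := Nat.cast_nonneg h
    have hP : ∀ μ : ℕ, (0.39:ℝ) * k ≤ μ → (μ:ℝ) ≤ 0.4955 * k → 2 * μ + 2 < k →
        c1 * 2 ^ ec d k / (k:ℝ) ^ 2 ≤ ((candP d μ k j).card : ℝ) →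
        (((candP d μ k j).filter (fun y => x ≤ y.1 * y.2 ∧ y.1 * y.2 < x + h)).card : ℝ) ≤
        CC * k * (h / 2 ^ ec d k) * (candP d μ k j).card := by
      intro μ hμ1 hμ2 hμ3 hcard
      have h1 := hW2 k b2 x h hh ((candP d μ k j).filter (fun y => x ≤ y.1 * y.2 ∧ y.1 * y.2 < x + h)) (by
        intro y hy
        rw [mem_filter] at hy
        obtain ⟨⟨f1, ⟨f2, f3⟩, f4⟩, f5, f6⟩ := mem_candP.mp hy.1
        have f7 := (q_large hd0 hj hμ3 hy.1).2
        have f8 : (2 : ℝ) ^ (0.19 * (k : ℝ)) ≤ (2:ℝ) ^ μ := by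
          rw [← Real.rpow_natCast 2 μ]
          apply Real.rpow_le_rpow_of_exponent_le (by norm_num)
          linarith
        have f9 : (2:ℝ) ^ μ < y.2 := by exact_mod_cast f2
        have f10 : (2:ℝ) ^ μ < y.1 := by
          have : 2 ^ μ < y.1 := by omega
          exact_mod_cast this
        exact ⟨f5, f4, lt_of_le_of_lt f8 f10, lt_of_le_of_lt f8 f9, hy.2.1, hy.2.2⟩)
      refine h1.trans ?_
      calc C2 * (h / (k:ℝ)) = C2 / c1 * k * (h / 2 ^ ec d k) * (c1 * 2 ^ ec d k / (k:ℝ) ^ 2) := by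
            field_simp
        _ ≤ CC * k * (h / 2 ^ ec d k) * (candP d μ k j).card := by gcongr
    rcases cls_cases d c1 k j with hc' | hc' | hc'
    · rw [hc'.2.1]
      exact hP (em k) (by linarith) (by linarith) m4 hc'.2.2
    · rw [hc'.2.1]
      exact hP (mu2 k) n1 (by linarith) n3 hc'.2.2.2
    · rw [hc'.2.1]
      have h2 := hrset k hk j hj hb
      have hT : ((candR d k j).filter (fun y => x ≤ y.1 * y.2 ∧ y.1 * y.2 < x + h)).card =
          (((candR d k j).filter (fun y => x ≤ y.1 * y.2 ∧ y.1 * y.2 < x + h)).image (fun y => y.1 * y.2)).card := by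
        rw [card_image_of_injOn]
        intro y hy y' hy' he
        rw [mem_coe, mem_filter] at hy hy'
        exact candR_inj hd0 (by omega) hj hy.1 hy'.1 he
      have h3 := hW3 k b3 x h hh (((candR d k j).filter (fun y => x ≤ y.1 * y.2 ∧ y.1 * y.2 < x + h)).image
        (fun y => y.1 * y.2)) (by
        intro n hn
        obtain ⟨y, hy, rfl⟩ := mem_image.mp hn
        rw [mem_filter] at hy
        obtain ⟨n', hn', f1, f2, f3⟩ := mem_candR hd0 (by omega) hj hy.1
        refine ⟨hy.2.1, hy.2.2, fun p hp hpd => ?_⟩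
        rw [f1] at hpd
        refine lt_of_le_of_lt ?_ ((mem_filter.mp hn').2.2.2.1 p hp hpd)
        apply Real.rpow_le_rpow_of_exponent_le (by norm_num)
        linarith)
      rw [hT]
      refine h3.trans ?_
      have hk1 : (1:ℝ) ≤ k := by linarith
      calc C3 * (h / (k:ℝ)) = C3 / c1 * (h / 2 ^ ec d k) * (c1 * 2 ^ ec d k / (k:ℝ)) := by
            field_simp
        _ ≤ CC * (h / 2 ^ ec d k) * (candR d k j).card := by gcongr
        _ = CC * 1 * (h / 2 ^ ec d k) * (candR d k j).card := by ring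
        _ ≤ CC * k * (h / 2 ^ ec d k) * (candR d k j).card := by gcongr

end Pool.Agent.Helper60.KX
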