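import Pool.Agent.Helper16.KS.St
import Pool.Agent.Helper60.KX.Expand
import Pool.Agent.Helper60.KE.All
import Pool.Agent.Helper60.KC.FinalG
import Pool.Agent.Helper1.KF.Final
import Pool.Agent.Helper40.AV.Rough3

/-! Project KS, task 1712: the system, candidates of the three classes. -/

set_option autoImplicit false
open scoped Classical
open Finset Filter Topology

namespace Pool.Agent.Helper60.KX

open Pool.Agent.Helper16.KS
open Pool.Agent.Helper29.KD (PMx nEx)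

/-! ### candidates with a prime `m` in a dyadic interval -/

noncomputable def candP (d : ℝ) (μ k j : ℕ) : Finset (ℕ × ℕ) :=
  (range (2 ^ (k + 1)) ×ˢ PMx μ).filter (fun x => x.1.Prime ∧ x.1 * x.2 ∈ cell d k j)

lemma card_candP (d : ℝ) (μ k j : ℕ) : (candP d μ k j).card = nEx μ k (ec d k) j := by
  unfold candP nEx cell
  apply card_nbij' Prod.swap Prod.swap
  · intro x hx
    simp only [coe_filter, mem_product, mem_range, Set.mem_setOf_eq, mem_Ico, Prod.fst_swap, Prod.snd_swap] at hx ⊢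
    obtain ⟨⟨a, b⟩, c, e, f⟩ := hx
    exact ⟨⟨b, a⟩, c, by rw [mul_comm x.2 x.1]; exact e, by rw [mul_comm x.2 x.1]; exact f⟩
  · intro x hx
    simp only [coe_filter, mem_product, mem_range, Set.mem_setOf_eq, mem_Ico, Prod.fst_swap, Prod.snd_swap] at hx ⊢
    obtain ⟨⟨a, b⟩, c, e, f⟩ := hx
    exact ⟨⟨b, a⟩, c, by rw [mul_comm x.2 x.1]; exact e, by rw [mul_comm x.2 x.1]; exact f⟩
  · intro x _; exact Prod.swap_swap x
  · intro x _; exact Prod.swap_swap x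

lemma mem_PMx {μ m : ℕ} : m ∈ PMx μ ↔ (2 ^ μ < m ∧ m ≤ 2 * 2 ^ μ) ∧ m.Prime := by
  unfold PMx
  rw [mem_filter, mem_Ioc]

lemma mem_candP {d : ℝ} {μ k j : ℕ} {x : ℕ × ℕ} : x ∈ candP d μ k j ↔
    (x.1 < 2 ^ (k + 1) ∧ (2 ^ μ < x.2 ∧ x.2 ≤ 2 * 2 ^ μ) ∧ x.2.Prime) ∧ x.1.Prime ∧ x.1 * x.2 ∈ cell d k j := by
  unfold candP
  rw [mem_filter, mem_product, mem_range, mem_PMx]

lemma q_large {d : ℝ} (hd : 0 < d) {μ k j : ℕ} (hj : j < nc d k) (hμ : 2 * μ + 2 < k) {x : ℕ × ℕ}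
    (hx : x ∈ candP d μ k j) : 2 ^ (k - μ - 1) ≤ x.1 ∧ 2 * 2 ^ μ < x.1 := by
  obtain ⟨⟨h1, ⟨h2, h3⟩, h4⟩, h5, h6⟩ := mem_candP.mp hx
  have h7 := (cell_bounds hd hj h6).1
  have h8 : 2 ^ (k - μ - 1) ≤ x.1 := by
    have h9 : 2 ^ k ≤ x.1 * (2 * 2 ^ μ) := h7.trans (Nat.mul_le_mul_left _ h3)
    have h10 : 2 ^ k = 2 ^ (k - μ - 1) * (2 * 2 ^ μ) := by
      rw [mul_comm 2, ← pow_succ, ← pow_add]
      congr 1
      omega
    rw [h10] at h9
    exact Nat.le_of_mul_le_mul_right h9 (by positivity)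
  refine ⟨h8, lt_of_lt_of_le ?_ h8⟩
  rw [mul_comm, ← pow_succ]
  exact Nat.pow_lt_pow_right (by norm_num) (by omega)

/-- candidate conditions -/
lemma candP_facts {d : ℝ} (hd : 0 < d) {μ k j : ℕ} (hj : j < nc d k) (hμ : 2 * μ + 2 < k) (hk6 : 10 ≤ k)
    {U c : ℝ} (hμ1 : (U + c) * k ≤ 0.49 * μ) (hμ2 : 0.51 * (μ + 1) ≤ (1/2 - U - c) * k) {x : ℕ × ℕ}
    (hx : x ∈ candP d μ k j) :
    x.1.Prime ∧ (2 : ℝ) ^ ((k : ℝ) / 3) ≤ x.1 ∧
    Squarefree (x.1 * x.2) ∧ 1 < x.2 ∧ x.1 * x.2 ∈ cell d k j ∧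
    (∀ p : ℕ, p.Prime → p ∣ x.1 * x.2 → (2 : ℝ) ^ ((U + c) * k) ≤ (p : ℝ) ^ (1/2 - (1/100 : ℝ))) ∧
    (x.2 : ℝ) ^ (1/2 + (1/100 : ℝ)) ≤ (2 : ℝ) ^ ((1/2 - U - c) * k) := by
  obtain ⟨hq1, hq2⟩ := q_large hd hj hμ hx
  obtain ⟨⟨h1, ⟨h2, h3⟩, h4⟩, h5, h6⟩ := mem_candP.mp hx
  have hkr : (10 : ℝ) ≤ k := by exact_mod_cast hk6
  have hμr : 2 * (μ : ℝ) + 3 ≤ k := by exact_mod_cast (by omega : 2 * μ + 3 ≤ k)
  have hbig : ∀ p : ℕ, 2 ^ μ < p → (2 : ℝ) ^ ((U + c) * k) ≤ (p : ℝ) ^ (1/2 - (1/100 : ℝ)) := by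
    intro p hp
    have e1 : ((2:ℝ) ^ μ) ^ (0.49 : ℝ) ≤ (p : ℝ) ^ (0.49 : ℝ) := by
      apply Real.rpow_le_rpow (by positivity) _ (by norm_num)
      exact_mod_cast hp.le
    have e2 : ((2:ℝ) ^ μ) ^ (0.49 : ℝ) = (2:ℝ) ^ (0.49 * (μ:ℝ)) := by
      rw [← Real.rpow_natCast, ← Real.rpow_mul (by norm_num)]; congr 1; ring
    have e3 : (1/2 - (1/100 : ℝ)) = 0.49 := by norm_num
    rw [e3]
    refine le_trans ?_ e1
    rw [e2]
    exact Real.rpow_le_rpow_of_exponent_le (by norm_num) hμ1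
  refine ⟨h5, ?_, ?_, h4.one_lt, h6, ?_, ?_⟩
  · have e1 : (2:ℝ) ^ (k - μ - 1) ≤ x.1 := by exact_mod_cast hq1
    refine le_trans ?_ e1
    rw [← Real.rpow_natCast]
    apply Real.rpow_le_rpow_of_exponent_le (by norm_num)
    have e2 : ((k - μ - 1 : ℕ) : ℝ) = k - μ - 1 := by
      rw [Nat.cast_sub (by omega), Nat.cast_sub (by omega)]; push_cast; ring
    rw [e2]
    linarith
  · rw [Nat.squarefree_mul ((Nat.coprime_primes h5 h4).mpr (by omega))]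
    exact ⟨h5.squarefree, h4.squarefree⟩
  · intro p hp hpd
    apply hbig
    rcases (Nat.Prime.dvd_mul hp).mp hpd with h | h
    · rw [(Nat.prime_dvd_prime_iff_eq hp h5).mp h]; omega
    · rw [(Nat.prime_dvd_prime_iff_eq hp h4).mp h]; exact h2
  · have e1 : (x.2 : ℝ) ≤ (2:ℝ) ^ (μ + 1) := by
      rw [pow_succ, mul_comm]; exact_mod_cast h3
    have e3 : (1/2 + (1/100 : ℝ)) = 0.51 := by norm_num
    rw [e3]
    calc (x.2 : ℝ) ^ (0.51:ℝ) ≤ ((2:ℝ) ^ (μ + 1)) ^ (0.51:ℝ) := Real.rpow_le_rpow (by positivity) e1 (by norm_num)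
      _ = (2:ℝ) ^ (0.51 * ((μ:ℝ) + 1)) := by
          rw [← Real.rpow_natCast, ← Real.rpow_mul (by norm_num)]; congr 1; push_cast; ring
      _ ≤ _ := Real.rpow_le_rpow_of_exponent_le (by norm_num) hμ2

lemma candP_inj {d : ℝ} (hd : 0 < d) {μ k j : ℕ} (hj : j < nc d k) (hμ : 2 * μ + 2 < k) {x y : ℕ × ℕ}
    (hx : x ∈ candP d μ k j) (hy : y ∈ candP d μ k j) (h : x.1 * x.2 = y.1 * y.2) : x = y := by
  obtain ⟨hq1, hq2⟩ := q_large hd hj hμ hx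
  obtain ⟨hq1', hq2'⟩ := q_large hd hj hμ hy
  obtain ⟨⟨h1, ⟨h2, h3⟩, h4⟩, h5, h6⟩ := mem_candP.mp hx
  obtain ⟨⟨h1', ⟨h2', h3'⟩, h4'⟩, h5', h6'⟩ := mem_candP.mp hy
  have hd1 : x.1 ∣ y.1 * y.2 := ⟨x.2, h.symm⟩
  have e1 : x.1 = y.1 := by
    rcases (Nat.Prime.dvd_mul h5).mp hd1 with h7 | h7
    · exact (Nat.prime_dvd_prime_iff_eq h5 h5').mp h7
    · have := (Nat.prime_dvd_prime_iff_eq h5 h4').mp h7
      omega
  have e2 : x.2 = y.2 := by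
    rw [e1] at h
    exact Nat.eq_of_mul_eq_mul_left h5'.pos h
  exact Prod.ext e1 e2

/-! ### rough candidates -/

/-- largest prime factor -/
def bigP (n : ℕ) : ℕ := n.primeFactors.sup id

lemma bigP_mem {n : ℕ} (hn : 2 ≤ n) : bigP n ∈ n.primeFactors := by
  have hne : n.primeFactors.Nonempty := by
    rw [Nat.nonempty_primeFactors]; omega
  obtain ⟨i, hi, h⟩ := exists_mem_eq_sup n.primeFactors hne id
  unfold bigP
  rw [h]; exact hi

lemma le_bigP {n p : ℕ} (hp : p ∈ n.primeFactors) : p ≤ bigP n := le_sup (f := id) hp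

noncomputable def rset (d : ℝ) (k j : ℕ) : Finset ℕ :=
  (cell d k j).filter (fun n => Squarefree n ∧ n.primeFactors.card ≤ 3 ∧
    (∀ p : ℕ, p.Prime → p ∣ n → (2 : ℝ) ^ ((0.245 : ℝ) * k) < p) ∧ ¬ n.Prime)

noncomputable def candR (d : ℝ) (k j : ℕ) : Finset (ℕ × ℕ) :=
  (rset d k j).image (fun n => (bigP n, n / bigP n))

lemma bigP_mul {n : ℕ} (hn : 2 ≤ n) : bigP n * (n / bigP n) = n :=
  Nat.mul_div_cancel' (Nat.dvd_of_mem_primeFactors (bigP_mem hn))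

lemma two_le_cell {d : ℝ} (hd : 0 < d) {k j n : ℕ} (hk : 1 ≤ k) (hj : j < nc d k) (hn : n ∈ cell d k j) :
    2 ≤ n := by
  have h1 := (cell_bounds hd hj hn).1
  have h2 : 2 ^ 1 ≤ 2 ^ k := Nat.pow_le_pow_right (by norm_num) hk
  omega

lemma card_candR {d : ℝ} (hd : 0 < d) {k j : ℕ} (hk : 1 ≤ k) (hj : j < nc d k) :
    (candR d k j).card = (rset d k j).card := by
  unfold candR
  apply card_image_of_injOn
  intro n hn n' hn' h
  rw [mem_coe] at hn hn'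
  have a := two_le_cell hd hk hj (mem_filter.mp hn).1
  have b := two_le_cell hd hk hj (mem_filter.mp hn').1
  simp only [Prod.mk.injEq] at h
  calc n = bigP n * (n / bigP n) := (bigP_mul a).symm
    _ = bigP n' * (n' / bigP n') := by rw [h.2, h.1]
    _ = n' := bigP_mul b

lemma mem_candR {d : ℝ} (hd : 0 < d) {k j : ℕ} (hk : 1 ≤ k) (hj : j < nc d k) {x : ℕ × ℕ}
    (hx : x ∈ candR d k j) : ∃ n ∈ rset d k j, x.1 * x.2 = n ∧ x.1 = bigP n ∧ x.2 = n / bigP n := by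
  obtain ⟨n, hn, rfl⟩ := mem_image.mp hx
  exact ⟨n, hn, bigP_mul (two_le_cell hd hk hj (mem_filter.mp hn).1), rfl, rfl⟩

lemma candR_inj {d : ℝ} (hd : 0 < d) {k j : ℕ} (hk : 1 ≤ k) (hj : j < nc d k) {x y : ℕ × ℕ}
    (hx : x ∈ candR d k j) (hy : y ∈ candR d k j) (h : x.1 * x.2 = y.1 * y.2) : x = y := by
  obtain ⟨n, hn, h1, h2, h3⟩ := mem_candR hd hk hj hx
  obtain ⟨n', hn', h1', h2', h3'⟩ := mem_candR hd hk hj hy
  have e : n = n' := by rw [← h1, ← h1', h]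
  subst e
  exact Prod.ext (by rw [h2, h2']) (by rw [h3, h3'])

lemma candR_facts {d : ℝ} (hd : 0 < d) {k j : ℕ} (hj : j < nc d k) (hk6 : 100 ≤ k)
    {U c : ℝ} (hU : U + c ≤ 0.12) (hU0 : 0 ≤ U + c) {x : ℕ × ℕ} (hx : x ∈ candR d k j) :
    x.1.Prime ∧ (2 : ℝ) ^ ((k : ℝ) / 3) ≤ x.1 ∧
    Squarefree (x.1 * x.2) ∧ 1 < x.2 ∧ x.1 * x.2 ∈ cell d k j ∧
    (∀ p : ℕ, p.Prime → p ∣ x.1 * x.2 → (2 : ℝ) ^ ((U + c) * k) ≤ (p : ℝ) ^ (1/2 - (1/100 : ℝ))) ∧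
    (x.2 : ℝ) ^ (1/2 + (1/100 : ℝ)) ≤ (2 : ℝ) ^ ((1/2 - U - c) * k) := by
  obtain ⟨n, hn, h1, h2, h3⟩ := mem_candR hd (by omega) hj hx
  obtain ⟨hnc, hsq, hcard, hr, hnp⟩ := mem_filter.mp hn
  have hn2 := two_le_cell hd (by omega) hj hnc
  have hb := bigP_mem hn2
  have hbp := Nat.prime_of_mem_primeFactors hb
  obtain ⟨hc1, hc2⟩ := cell_bounds hd hj hnc
  have hkr : (100 : ℝ) ≤ k := by exact_mod_cast hk6
  have hn0 : n ≠ 0 := by omega
  have hcube : n ≤ bigP n ^ 3 := by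
    calc n = ∏ p ∈ n.primeFactors, p := (Nat.prod_primeFactors_of_squarefree hsq).symm
      _ ≤ ∏ _p ∈ n.primeFactors, bigP n := prod_le_prod' fun p hp => le_bigP hp
      _ = bigP n ^ n.primeFactors.card := by rw [prod_const]
      _ ≤ bigP n ^ 3 := Nat.pow_le_pow_right hbp.pos hcard
  have hx1 : x.1 = bigP n := h2
  have hthird : (2 : ℝ) ^ ((k : ℝ) / 3) ≤ bigP n := by
    have e1 : (2:ℝ) ^ k ≤ (bigP n : ℝ) ^ 3 := by exact_mod_cast hc1.trans hcube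
    have e2 : ((2:ℝ) ^ k) ^ (1/3 : ℝ) ≤ ((bigP n : ℝ) ^ 3) ^ (1/3 : ℝ) :=
      Real.rpow_le_rpow (by positivity) e1 (by norm_num)
    rw [← Real.rpow_natCast, ← Real.rpow_mul (by norm_num), ← Real.rpow_natCast, ← Real.rpow_mul (by positivity)] at e2
    norm_num at e2
    have e3 : (k:ℝ) * (1/3) = k / 3 := by ring
    rw [e3] at e2
    exact e2
  have hx2pos : 0 < x.2 := by
    rcases Nat.eq_zero_or_pos x.2 with h | h
    · rw [h, mul_zero] at h1; omega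
    · exact h
  refine ⟨by rw [hx1]; exact hbp, by rw [hx1]; exact hthird, by rw [h1]; exact hsq, ?_, by rw [h1]; exact hnc, ?_, ?_⟩
  · by_contra hcon
    have : x.2 = 1 := by omega
    rw [this, mul_one, hx1] at h1
    exact hnp (by rw [← h1]; exact hbp)
  · intro p hp hpd
    rw [h1] at hpd
    have e1 := hr p hp hpd
    have e3 : (1/2 - (1/100 : ℝ)) = 0.49 := by norm_num
    rw [e3]
    calc (2 : ℝ) ^ ((U + c) * k) ≤ (2:ℝ) ^ ((0.245 : ℝ) * k * 0.49) := by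
          apply Real.rpow_le_rpow_of_exponent_le (by norm_num)
          nlinarith
      _ = ((2:ℝ) ^ ((0.245 : ℝ) * k)) ^ (0.49:ℝ) := by rw [Real.rpow_mul (by norm_num)]
      _ ≤ (p:ℝ) ^ (0.49:ℝ) := Real.rpow_le_rpow (by positivity) e1.le (by norm_num)
  · have e1 : (x.2 : ℝ) ≤ (2:ℝ) ^ ((2 * (k:ℝ)) / 3 + 1) := by
      have e2 : (x.1 : ℝ) * x.2 ≤ (2:ℝ) ^ ((k:ℝ) + 1) := by
        rw [Real.rpow_add (by norm_num), Real.rpow_one, Real.rpow_natCast, ← pow_succ]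
        exact_mod_cast (by rw [h1]; exact hc2.le : x.1 * x.2 ≤ 2 ^ (k + 1))
      have e3 : (2 : ℝ) ^ ((k : ℝ) / 3) * x.2 ≤ (2:ℝ) ^ ((k : ℝ) / 3) * (2:ℝ) ^ ((2 * (k:ℝ)) / 3 + 1) := by
        rw [← Real.rpow_add (by norm_num)]
        have e4 : (k : ℝ) / 3 + (2 * (k:ℝ) / 3 + 1) = k + 1 := by ring
        rw [e4]
        refine le_trans ?_ e2
        apply mul_le_mul_of_nonneg_right _ (by positivity)
        rw [hx1]; exact hthird
      exact le_of_mul_le_mul_left e3 (by positivity)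
    have e3 : (1/2 + (1/100 : ℝ)) = 0.51 := by norm_num
    rw [e3]
    calc (x.2 : ℝ) ^ (0.51:ℝ) ≤ ((2:ℝ) ^ ((2 * (k:ℝ)) / 3 + 1)) ^ (0.51:ℝ) :=
          Real.rpow_le_rpow (by positivity) e1 (by norm_num)
      _ = (2:ℝ) ^ (((2 * (k:ℝ)) / 3 + 1) * 0.51) := by rw [← Real.rpow_mul (by norm_num)]
      _ ≤ _ := by
          apply Real.rpow_le_rpow_of_exponent_le (by norm_num)
          nlinarith

/-- lower bound for the number of rough candidates in a prime-poor cell -/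
lemma rset_lower {d : ℝ} (hd : 0 < d) (hd1 : d ≤ 1/10000) : ∃ cr : ℝ, 0 < cr ∧ ∃ K : ℕ, ∀ k : ℕ, K ≤ k →
    ∀ j < nc d k, cr * 2 ^ ec d k / k ≤ ((rset d k j).card : ℝ) + npr d k j := by
  obtain ⟨c, hc, X0, hX⟩ := Pool.Agent.Helper40.AV.roughAvail3_245
  refine ⟨c, hc, max X0 20000, fun k hk j hj => ?_⟩
  have hkX : X0 ≤ k := (le_max_left _ _).trans hk
  have hk2 : 20000 ≤ k := (le_max_right _ _).trans hk
  have hkr : (20000 : ℝ) ≤ k := by exact_mod_cast hk2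
  set x : ℕ := 2 ^ k + j * 2 ^ ec d k with hx
  have hec1 : (k : ℝ) * (1/2 - d) - 1 < ec d k := by
    have := Nat.lt_floor_add_one ((k : ℝ) * (1/2 - d))
    unfold ec; linarith
  have hec2 : (ec d k : ℝ) ≤ k * (1/2 - d) := by
    unfold ec
    exact Nat.floor_le (by nlinarith)
  have hxk : 2 ^ k ≤ x := Nat.le_add_right _ _
  have hpos : 0 < 2 ^ ec d k := by positivity
  have hxlt : x < 2 ^ (k + 1) := by
    have hm : x ∈ cell d k j := by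
      unfold cell
      rw [mem_Ico, add_mul, one_mul]
      omega
    exact (cell_bounds hd hj hm).2
  have hxkr : (2:ℝ) ^ (k:ℝ) ≤ x := by rw [Real.rpow_natCast]; exact_mod_cast hxk
  have hxltr : (x:ℝ) ≤ (2:ℝ) ^ ((k:ℝ) + 1) := by
    rw [Real.rpow_add (by norm_num), Real.rpow_one, Real.rpow_natCast, ← pow_succ]; exact_mod_cast hxlt.le
  have hx0 : (0:ℝ) < x := lt_of_lt_of_le (by positivity) hxkr
  have hbig : X0 ≤ x := by
    have : k < 2 ^ k := Nat.lt_two_pow_self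
    omega
  have hH : ((2 ^ ec d k : ℕ) : ℝ) = (2:ℝ) ^ (ec d k : ℝ) := by
    rw [Real.rpow_natCast]; push_cast; rfl
  have h1 : (x : ℝ) ^ (1 / 2 - 0.0002 : ℝ) ≤ ((2 ^ ec d k : ℕ) : ℝ) := by
    rw [hH]
    calc (x : ℝ) ^ (1 / 2 - 0.0002 : ℝ) ≤ ((2:ℝ) ^ ((k:ℝ) + 1)) ^ (1 / 2 - 0.0002 : ℝ) :=
          Real.rpow_le_rpow hx0.le hxltr (by norm_num)
      _ = (2:ℝ) ^ (((k:ℝ) + 1) * (1 / 2 - 0.0002)) := by rw [← Real.rpow_mul (by norm_num)]
      _ ≤ _ := by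
          apply Real.rpow_le_rpow_of_exponent_le (by norm_num)
          nlinarith
  have h2 : ((2 ^ ec d k : ℕ) : ℝ) ≤ (x : ℝ) ^ (1 / 2 : ℝ) := by
    rw [hH]
    calc (2:ℝ) ^ (ec d k : ℝ) ≤ (2:ℝ) ^ ((k:ℝ) * (1/2)) := by
          apply Real.rpow_le_rpow_of_exponent_le (by norm_num)
          nlinarith
      _ = ((2:ℝ) ^ (k:ℝ)) ^ (1/2 : ℝ) := by rw [← Real.rpow_mul (by norm_num)]
      _ ≤ _ := Real.rpow_le_rpow (by positivity) hxkr (by norm_num)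
  have h3 := hX x (2 ^ ec d k) hbig h1 h2
  have hlog : Real.log x ≤ k := by
    have e1 := Real.log_le_log hx0 hxltr
    rw [Real.log_rpow (by norm_num)] at e1
    have e2 := Real.log_two_lt_d9
    have e3 : ((k:ℝ) + 1) * Real.log 2 ≤ ((k:ℝ) + 1) * 0.6932 := by
      apply mul_le_mul_of_nonneg_left _ (by positivity)
      linarith
    linarith
  have hlog0 : 0 < Real.log x := by
    apply Real.log_pos
    refine lt_of_lt_of_le ?_ hxkr
    exact Real.one_lt_rpow (by norm_num) (by linarith)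
  have h4 : c * 2 ^ ec d k / k ≤ c * ((2 ^ ec d k : ℕ) : ℝ) / Real.log x := by
    push_cast
    apply div_le_div_of_nonneg_left (by positivity) hlog0 hlog
  refine (h4.trans h3).trans ?_
  have hcell : Ico x (x + 2 ^ ec d k) = cell d k j := by
    unfold cell
    rw [hx]
    congr 1
    ring
  have hsub : (Ico x (x + 2 ^ ec d k)).filter (fun n => Squarefree n ∧
      n.primeFactors.card ≤ 3 ∧ ∀ p : ℕ, p.Prime → p ∣ n → (x : ℝ) ^ (0.245:ℝ) < p) ⊆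
      rset d k j ∪ (cell d k j).filter Nat.Prime := by
    intro n hn
    rw [mem_filter, hcell] at hn
    obtain ⟨a, b, c', e⟩ := hn
    rw [mem_union]
    by_cases hnp : n.Prime
    · right; exact mem_filter.mpr ⟨a, hnp⟩
    · left
      refine mem_filter.mpr ⟨a, b, c', ?_, hnp⟩
      intro p hp hpn
      refine lt_of_le_of_lt ?_ (e p hp hpn)
      calc (2 : ℝ) ^ ((0.245 : ℝ) * k) = ((2:ℝ) ^ (k:ℝ)) ^ (0.245:ℝ) := by
            rw [← Real.rpow_mul (by norm_num)]; congr 1; ring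
        _ ≤ _ := Real.rpow_le_rpow (by positivity) hxkr (by norm_num)
  have h5 := (card_le_card hsub).trans (card_union_le _ _)
  unfold npr
  exact_mod_cast h5

end Pool.Agent.Helper60.KX
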